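import Pool.Agent.Lib_MP_0225c1.Defs

open MeasureTheory ProbabilityTheory
open scoped ENNReal

namespace Pool.Agent.PR0225

/-- **ARITH.** Choice of the phase `j` for a packet with congestion `c ≥ 1` and path length `d ≥ 1` in
a collection of `n ≥ 2` paths; `K j = 400 (j + 1) ^ 3`, `uu j = 1 / (24 (j + 1) ^ 2)`.

Proof. Let `L = log n ≥ 1 / 2`, `l = log (2 + c + d + L) ≥ 1`, `M = c + l ^ 3 d + l ^ 2 L ≥ 2` and
take `j` with `2 ^ j ≤ A₁ M < 2 ^ (j + 1)`, `A₁` a large constant (depending on `α`), so that the last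
claim holds with `A = 2 * A₁`. Since `M ≤ (2 + c + d + L) ^ 6`, say, `j + 1 ≤ 1 + (log A₁ + 6 l) / log 2 ≤
a l` with `a = 12 + 2 log A₁`. Now `2 ^ j > A₁ M / 2`; the three conditions hold if
`A₁ M / 2 ≥ 32 c`, `A₁ M / 2 ≥ 3200 a ^ 3 l ^ 3 d` and `A₁ M / 2 ≥ 192 a ^ 2 l ^ 2 (log d + (α + 1) L)`
(note `log d ≤ d ≤ l ^ 3 d`), so if `A₁ ≥ C (1 + α) (12 + 2 log A₁) ^ 3` for an absolute constant `C`,
which is true for large `A₁`. -/
theorem arith (α : ℝ) (hα : 0 < α) : ∃ A : ℝ, 0 < A ∧ ∀ c d n : ℕ, 1 ≤ c → 1 ≤ d → 2 ≤ n →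
    ∃ j : ℕ, 2 ≤ j ∧ 8 * c ≤ 2 ^ (j - 2) ∧ 2 * (K j * d) ≤ 2 ^ (j - 2) ∧
      (d : ℝ) * Real.exp (-(uu j / 2) * 2 ^ (j - 2)) ≤ (n : ℝ) ^ (-(α + 1)) ∧
      (2 : ℝ) ^ (j + 1) ≤ A * (c + Real.log (2 + c + d + Real.log n) ^ 3 * d +
        Real.log (2 + c + d + Real.log n) ^ 2 * Real.log n) := by
  set t : ℝ := 26214400 * (1 + α) with ht
  have ht1 : (26214400 : ℝ) ≤ t := by rw [ht]; nlinarith
  have ht0 : (1 : ℝ) ≤ t := by linarith
  have htα : 98304 * (1 + α) ≤ t := by rw [ht]; nlinarith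
  have htpos : 0 < t := by linarith
  refine ⟨2 * t ^ 6, by positivity, ?_⟩
  intro c d n hc hd hn
  have hcR : (1 : ℝ) ≤ c := by exact_mod_cast hc
  have hdR : (1 : ℝ) ≤ d := by exact_mod_cast hd
  have hnR : (2 : ℝ) ≤ n := by exact_mod_cast hn
  have hn0 : (0 : ℝ) < n := by linarith
  set L : ℝ := Real.log n with hL
  have hL0 : 0 ≤ L := Real.log_nonneg (by linarith)
  set s : ℝ := 2 + c + d + L with hs
  have hs4 : 4 ≤ s := by rw [hs]; linarith
  have hs0 : 0 < s := by linarith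
  set l : ℝ := Real.log s with hl
  have hl1 : 1 ≤ l := by
    rw [hl, Real.le_log_iff_exp_le hs0]
    have := Real.exp_one_lt_d9
    linarith
  have hls : l ≤ s := by
    have := Real.log_le_sub_one_of_pos hs0
    rw [hl]; linarith
  have hl0 : 0 < l := by linarith
  set M : ℝ := c + l ^ 3 * d + l ^ 2 * L with hM
  have hl3 : 0 < l ^ 3 := by positivity
  have hl2 : 0 < l ^ 2 := by positivity
  have hMc : (c : ℝ) ≤ M := by
    have h1 : 0 ≤ l ^ 3 * d := by positivity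
    have h2 : 0 ≤ l ^ 2 * L := by positivity
    rw [hM]; linarith
  have hM1 : 1 ≤ M := by linarith
  have hMd : l ^ 3 * d ≤ M := by
    have h2 : 0 ≤ l ^ 2 * L := by positivity
    rw [hM]; linarith
  have hMdL : l ^ 3 * d + l ^ 2 * L ≤ M := by
    rw [hM]; linarith
  have hMs : M ≤ s ^ 4 := by
    have h3 : l ^ 3 ≤ s ^ 3 := pow_le_pow_left₀ hl0.le hls 3
    have h2 : l ^ 2 ≤ s ^ 2 := pow_le_pow_left₀ hl0.le hls 2
    have h23 : s ^ 2 ≤ s ^ 3 := pow_le_pow_right₀ (by linarith) (by norm_num)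
    have h03 : (1 : ℝ) ≤ s ^ 3 := one_le_pow₀ (by linarith)
    have e1 : (c : ℝ) ≤ s ^ 3 * c := le_mul_of_one_le_left (by linarith) h03
    have e2 : l ^ 3 * d ≤ s ^ 3 * d := mul_le_mul_of_nonneg_right h3 (by linarith)
    have e3 : l ^ 2 * L ≤ s ^ 3 * L := mul_le_mul_of_nonneg_right (h2.trans h23) hL0
    have e4 : s ^ 4 = s ^ 3 * (2 + c + d + L) := by rw [← hs]; ring
    rw [e4, hM]
    nlinarith
  have ht6 : t ≤ t ^ 6 := le_self_pow₀ ht0 (by norm_num)
  have hAM : 1 ≤ t ^ 6 * M := by nlinarith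
  obtain ⟨j, hj1, hj2⟩ := exists_nat_pow_near (y := (2 : ℝ)) hAM (by norm_num)
  have hj2' : t ^ 6 * M < 2 * 2 ^ j := by
    have e := pow_succ (2 : ℝ) j
    rw [e] at hj2
    linarith
  have hjbig : (2 : ℝ) ^ 2 < 2 ^ j := by
    have : (26214400 : ℝ) ≤ t ^ 6 * M := by nlinarith
    linarith
  have hj : 2 ≤ j := ((pow_lt_pow_iff_right₀ (by norm_num : (1 : ℝ) < 2)).1 hjbig).le
  have hpow : (4 : ℝ) * 2 ^ (j - 2) = 2 ^ j := by
    have : (4 : ℝ) = 2 ^ 2 := by norm_num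
    rw [this, ← pow_add]
    congr 1
    omega
  -- bound for `j`
  have hjl : (j : ℝ) + 1 ≤ 16 * t * l := by
    have h1 : (j : ℝ) * Real.log 2 ≤ Real.log (t ^ 6 * s ^ 4) := by
      rw [← Real.log_pow]
      apply Real.log_le_log (by positivity)
      exact hj1.trans (mul_le_mul_of_nonneg_left hMs (by positivity))
    rw [Real.log_mul (by positivity) (by positivity), Real.log_pow, Real.log_pow] at h1
    have h2 : Real.log t ≤ t - 1 := Real.log_le_sub_one_of_pos htpos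
    have h3 := Real.log_two_gt_d9
    have h4 : t ≤ t * l := le_mul_of_one_le_right htpos.le hl1
    have h5 : l ≤ t * l := le_mul_of_one_le_left hl0.le ht0
    push_cast at h1
    rw [← hl] at h1
    have h6 : (j : ℝ) * (2 / 3) ≤ (j : ℝ) * Real.log 2 :=
      mul_le_mul_of_nonneg_left (by linarith) (by positivity)
    nlinarith
  have hj0 : (0 : ℝ) ≤ (j : ℝ) + 1 := by positivity
  have hj2p : ((j : ℝ) + 1) ^ 2 ≤ (16 * t * l) ^ 2 := pow_le_pow_left₀ hj0 hjl 2
  have hj3p : ((j : ℝ) + 1) ^ 3 ≤ (16 * t * l) ^ 3 := pow_le_pow_left₀ hj0 hjl 3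
  have ht3 : t ≤ t ^ 3 := le_self_pow₀ ht0 (by norm_num)
  have ht4 : t ≤ t ^ 4 := le_self_pow₀ ht0 (by norm_num)
  refine ⟨j, hj, ?_, ?_, ?_, ?_⟩
  · have h : ((8 * c : ℕ) : ℝ) ≤ ((2 ^ (j - 2) : ℕ) : ℝ) := by
      push_cast
      have : (64 : ℝ) * c ≤ t ^ 6 * M := by
        apply mul_le_mul (by linarith) hMc (by linarith) (by positivity)
      linarith
    exact_mod_cast h
  · have h : ((2 * (K j * d) : ℕ) : ℝ) ≤ ((2 ^ (j - 2) : ℕ) : ℝ) := by
      unfold K K0
      push_cast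
      have h1 : ((j : ℝ) + 1) ^ 3 * d ≤ (16 * t * l) ^ 3 * d :=
        mul_le_mul_of_nonneg_right hj3p (by linarith)
      have h2 : 6400 * ((16 * t * l) ^ 3 * d) ≤ t ^ 6 * M := by
        calc 6400 * ((16 * t * l) ^ 3 * d) = (26214400 * t ^ 3) * (l ^ 3 * d) := by ring
          _ ≤ (t ^ 3 * t ^ 3) * M := by
              apply mul_le_mul _ hMd (by positivity) (by positivity)
              exact mul_le_mul_of_nonneg_right (by linarith) (by positivity)
          _ = t ^ 6 * M := by ring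
      have h3 : 4 * (2 * (((j : ℝ) + 1) * (400 * ((j : ℝ) + 1) ^ 2) * d)) =
          3200 * (((j : ℝ) + 1) ^ 3 * d) := by ring
      linarith
    exact_mod_cast h
  · have hd0 : (0 : ℝ) < d := by linarith
    have hlogd : Real.log d ≤ d := by
      have := Real.log_le_sub_one_of_pos hd0
      linarith
    have hlogd0 : 0 ≤ Real.log d := Real.log_nonneg hdR
    set Y : ℝ := Real.log d + (α + 1) * L with hY
    have hY0 : 0 ≤ Y := by positivity
    have hYM : l ^ 2 * Y ≤ (α + 1) * M := by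
      have e1 : l ^ 2 * Real.log d ≤ l ^ 3 * d := by
        apply mul_le_mul _ hlogd hlogd0 hl3.le
        exact pow_le_pow_right₀ hl1 (by norm_num)
      have e2 : l ^ 3 * d ≤ (α + 1) * (l ^ 3 * d) :=
        le_mul_of_one_le_left (by positivity) (by linarith)
      have e3 : (α + 1) * (l ^ 3 * d + l ^ 2 * L) ≤ (α + 1) * M :=
        mul_le_mul_of_nonneg_left hMdL (by linarith)
      have e4 : l ^ 2 * Y = l ^ 2 * Real.log d + (α + 1) * (l ^ 2 * L) := by rw [hY]; ring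
      rw [e4]
      linarith
    have hkey : 192 * ((j : ℝ) + 1) ^ 2 * Y ≤ 2 ^ j := by
      have h1 : ((j : ℝ) + 1) ^ 2 * Y ≤ (16 * t * l) ^ 2 * Y :=
        mul_le_mul_of_nonneg_right hj2p hY0
      have h2 : 384 * ((16 * t * l) ^ 2 * Y) ≤ t ^ 6 * M := by
        calc 384 * ((16 * t * l) ^ 2 * Y) = (98304 * t ^ 2) * (l ^ 2 * Y) := by ring
          _ ≤ (98304 * t ^ 2) * ((α + 1) * M) :=
              mul_le_mul_of_nonneg_left hYM (by positivity)
          _ = (t ^ 2 * (98304 * (1 + α))) * M := by ring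
          _ ≤ (t ^ 2 * t ^ 4) * M := by
              apply mul_le_mul_of_nonneg_right _ (by linarith)
              exact mul_le_mul_of_nonneg_left (by linarith) (by positivity)
          _ = t ^ 6 * M := by ring
      linarith
    have hexp : Y ≤ uu j / 2 * 2 ^ (j - 2) := by
      have hj1p : (0 : ℝ) < (j : ℝ) + 1 := by positivity
      have e : uu j / 2 * 2 ^ (j - 2) = 2 ^ j / (192 * ((j : ℝ) + 1) ^ 2) := by
        unfold uu
        rw [← hpow]
        field_simp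
        norm_num
      rw [e, le_div_iff₀ (by positivity)]
      linarith
    calc (d : ℝ) * Real.exp (-(uu j / 2) * 2 ^ (j - 2))
        ≤ d * Real.exp (-Y) := by
          apply mul_le_mul_of_nonneg_left _ hd0.le
          apply Real.exp_le_exp.2
          linarith
      _ = Real.exp (Real.log d) * Real.exp (-Y) := by rw [Real.exp_log hd0]
      _ = Real.exp (Real.log n * (-(α + 1))) := by
          rw [← Real.exp_add]
          congr 1
          rw [hY, hL]; ring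
      _ = (n : ℝ) ^ (-(α + 1)) := by rw [Real.rpow_def_of_pos hn0]
      _ ≤ _ := le_rfl
  · calc (2 : ℝ) ^ (j + 1) = 2 * 2 ^ j := by ring
      _ ≤ 2 * (t ^ 6 * M) := by linarith
      _ = 2 * t ^ 6 * M := by ring

end Pool.Agent.PR0225
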