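import Pool.Agent.Lib_MP_0225c1.Defs

open MeasureTheory ProbabilityTheory
open scoped ENNReal

namespace Pool.Agent.PR0225

private theorem avg_swap {j : ℕ} (m : Fin (2 ^ j + 1)) (G : PS j → ℝ) :
    ∑ η : PS j, ∑ v : Fin (rg j m), G (Function.update η m v) =
      (rg j m : ℝ) * ∑ η : PS j, G η := by
  let e : PS j × Fin (rg j m) ≃ PS j × Fin (rg j m) :=
    { toFun := fun x => (Function.update x.1 m x.2, x.1 m)
      invFun := fun x => (Function.update x.1 m x.2, x.1 m)
      left_inv := fun x => by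
        refine Prod.ext ?_ ?_
        · simp
        · simp
      right_inv := fun x => by
        refine Prod.ext ?_ ?_
        · simp
        · simp }
  rw [← Fintype.sum_prod_type' (f := fun (η : PS j) (v : Fin (rg j m)) =>
    G (Function.update η m v))]
  have h1 : ∑ x : PS j × Fin (rg j m), G (Function.update x.1 m x.2) =
      ∑ x : PS j × Fin (rg j m), G x.1 :=
    Equiv.sum_comp e (fun x : PS j × Fin (rg j m) => G x.1)
  rw [h1, Fintype.sum_prod_type]
  simp only [Finset.sum_const, Finset.card_univ, Fintype.card_fin, nsmul_eq_mul]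
  rw [Finset.mul_sum]

private theorem avg_count (r A a b : ℕ) (hab : a ≤ b) :
    ∑ v : Fin r, ind (a ≤ A + (v : ℕ) ∧ A + (v : ℕ) ≤ b) ≤ (b : ℝ) - a + 1 := by
  classical
  have h1 : ∀ v : Fin r, ind (a ≤ A + (v : ℕ) ∧ A + (v : ℕ) ≤ b) =
      if (a ≤ A + (v : ℕ) ∧ A + (v : ℕ) ≤ b) then (1 : ℝ) else 0 := by
    intro v
    unfold ind
    split_ifs <;> rfl
  rw [Finset.sum_congr rfl fun v _ => h1 v, Finset.sum_boole]
  have h2 : (Finset.univ.filter fun v : Fin r => a ≤ A + (v : ℕ) ∧ A + (v : ℕ) ≤ b).card ≤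
      (Finset.Icc a b).card := by
    refine Finset.card_le_card_of_injOn (fun v => A + (v : ℕ)) ?_ ?_
    · intro v hv
      have h3 := (Finset.mem_filter.1 hv).2
      exact Finset.mem_coe.2 (Finset.mem_Icc.2 h3)
    · intro v _ w _ hvw
      have h3 : A + (v : ℕ) = A + (w : ℕ) := hvw
      exact Fin.ext (by omega)
  rw [Nat.card_Icc] at h2
  have h3 : ((Finset.univ.filter fun v : Fin r => a ≤ A + (v : ℕ) ∧ A + (v : ℕ) ≤ b).card : ℝ) ≤
      ((b + 1 - a : ℕ) : ℝ) := by exact_mod_cast h2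
  refine h3.trans (le_of_eq ?_)
  rw [Nat.cast_sub (by omega)]
  push_cast
  ring

/-- **AVG.** Averaging over one random number. `F` and `A` do not depend on the coordinate `m`.

Proof. Group the sum over `η` by the other coordinates: for instance
`Σ_η G η = (rg j m)⁻¹ Σ_η Σ_v G (update η m v)` for every `G` (the map `(η, v) ↦ update η m v`
takes every value `rg j m` times), or use `Fintype.sum` over `Equiv.piSplitAt m` /
`Fin.insertNthEquiv`. For fixed `η`, `Σ_v F η * ind (a ≤ A η + v ≤ b) = F η * #{v : ...}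
≤ F η * (b - a + 1)`. -/
theorem avg {j : ℕ} (m : Fin (2 ^ j + 1)) (F : PS j → ℝ) (hF0 : ∀ η, 0 ≤ F η)
    (hF : ∀ η v, F (Function.update η m v) = F η) (A : PS j → ℕ)
    (hA : ∀ η v, A (Function.update η m v) = A η) (a b : ℕ) (hab : a ≤ b) :
    ∑ η : PS j, F η * ind (a ≤ A η + (η m : ℕ) ∧ A η + (η m : ℕ) ≤ b) ≤
      (((b : ℝ) - a + 1) / (rg j m : ℝ)) * ∑ η : PS j, F η := by
  have hr : (0 : ℝ) < (rg j m : ℝ) := by exact_mod_cast rg_pos j m
  rw [div_mul_eq_mul_div, le_div_iff₀ hr, mul_comm, ← avg_swap, Finset.mul_sum]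
  refine Finset.sum_le_sum fun η _ => ?_
  have h1 : ∀ v : Fin (rg j m), F (Function.update η m v) *
      ind (a ≤ A (Function.update η m v) + ((Function.update η m v) m : ℕ) ∧
        A (Function.update η m v) + ((Function.update η m v) m : ℕ) ≤ b) =
      F η * ind (a ≤ A η + (v : ℕ) ∧ A η + (v : ℕ) ≤ b) := by
    intro v
    rw [hF, hA, Function.update_self]
  rw [Finset.sum_congr rfl fun v _ => h1 v, ← Finset.mul_sum, mul_comm]
  exact mul_le_mul_of_nonneg_right (avg_count _ _ _ _ hab) (hF0 η)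

end Pool.Agent.PR0225
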