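import Pool.Agent.Lib_MP_0225c1.Busy

open MeasureTheory ProbabilityTheory
open scoped ENNReal

namespace Pool.Agent.PR0225

/-- **CHAIN.** If packet `q` crosses `e` in step `t` then there is a skeleton, starting with a window
`(e, a, b)`, `b` the nominal time of `q` at `e`, with
`t + 1 + Σ weights ≤ b + Σ numbers of packets in the windows`.

Proof. Strong induction on `t`. Take `s`, `q'`, `t'`, `a = ν q' (x t' q' + 1)` from `busy`.
If `x t' q' = 0` then `s = 0` (the last clause of `busy`), so `t + 1 ≤ cnt`, and `k ≤ ν q' 1 = a`: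
the skeleton `[(e, a, b)]` works, `wt k (e, a, b) = b - a + k ≤ b`.
If `x t' q' = h + 1`: there is a step `t₁ < t'` with `x t₁ q' = h`, `x (t₁ + 1) q' = h + 1` (`x` starts
with `0` and increases by steps of one), and `s ≤ t₁ + 1` (else `x (s - 1) q' ≥ x (t₁ + 1) q' = h + 1`).
Let `e'` be the `h`-th edge of `p q'` (it exists). The induction hypothesis for `q'`, `e'`, `t₁`
(`ν q' (h + 1) ≤ a ≤ b ≤ T`) gives a skeleton `s'` with head `(e', a', ν q' (h + 1))`. Take
`(e, a, b) :: s'`: `Fol p e' e` holds, `ν q' (h + 1) + k ≤ ν q' (h + 2) = a`, and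
`t + 1 + wt + Σ' wt ≤ cnt + s + (b - a + k) + Σ' wt ≤ cnt + (t₁ + 1 + Σ' wt) + (b - a + k)
≤ cnt + ν q' (h + 1) + Σ' cnt + (b - a + k) ≤ b + cnt + Σ' cnt`. -/
theorem chain_exists {E : Type} {n T : ℕ} {p : Fin n → List E} {ν : Fin n → ℕ → ℕ}
    {x : ℕ → Fin n → ℕ} (hx : GreedyRun T p ν x) (hp : ∀ i, (p i).Nodup) {k : ℕ}
    (h1 : ∀ i, k ≤ ν i 1) (h2 : ∀ i h, ν i h + k ≤ ν i (h + 1)) {t : ℕ} (ht : t < T)
    {q : Fin n} {e : E} (he : (p q)[x t q]? = some e) (hc : x (t + 1) q = x t q + 1)
    (hb : ν q (x t q + 1) ≤ T) :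
    ∃ s : List (E × ℕ × ℕ), Skel (Fol p) k T s ∧ (∃ a, s.head? = some (e, a, ν q (x t q + 1))) ∧
      t + 1 + (s.map (wt k)).sum ≤ ν q (x t q + 1) + (s.map (cnt p ν)).sum := by
  have hmono : ∀ (j : Fin n) (a b : ℕ), a ≤ b → b ≤ T → x a j ≤ x b j := by
    intro j a b hab
    induction b, hab using Nat.le_induction with
    | base => intro _; exact le_rfl
    | succ b hab ih =>
      intro hb
      have h3 := ih (by omega)
      rcases hx.step b (by omega) j with h4 | h4 <;> omega
  induction t using Nat.strong_induction_on generalizing q e with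
  | _ t ih =>
    obtain ⟨s, hs, q', t', hst, htt, he', hc', hab, hcnt, hlast⟩ := busy hx hp ht he hc
    rcases Nat.eq_zero_or_pos (x t' q') with h0 | h0
    · have hs0 : s = 0 := by
        rcases hlast with h | h
        · exact h
        · omega
      have hk := h1 q'
      rw [h0] at hab hcnt
      rw [zero_add] at hab hcnt
      refine ⟨[(e, ν q' 1, ν q (x t q + 1))], ⟨?_, List.isChain_singleton _⟩, ⟨ν q' 1, rfl⟩, ?_⟩
      · intro y hy
        rw [List.mem_singleton] at hy
        subst hy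
        exact ⟨hab, hb⟩
      · simp only [List.map_cons, List.map_nil, List.sum_cons, List.sum_nil, wt]
        omega
    · obtain ⟨h, hh⟩ : ∃ h, x t' q' = h + 1 := ⟨x t' q' - 1, by omega⟩
      -- the step in which `q'` crossed the previous edge
      obtain ⟨t₁, ht₁, hx1, hx2⟩ : ∃ t₁, t₁ < t' ∧ x t₁ q' = h ∧ x (t₁ + 1) q' = h + 1 := by
        classical
        have hex : ∃ m, h + 1 ≤ x m q' := ⟨t', by omega⟩
        obtain ⟨m, hm⟩ : ∃ m, m = Nat.find hex := ⟨_, rfl⟩
        have hm1 : h + 1 ≤ x m q' := by rw [hm]; exact Nat.find_spec hex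
        have hm2 : m ≤ t' := by rw [hm]; exact Nat.find_min' hex (by omega)
        have hm0 : m ≠ 0 := by
          intro h3
          rw [h3, hx.zero] at hm1
          omega
        obtain ⟨t₁, rfl⟩ : ∃ t₁, m = t₁ + 1 := ⟨m - 1, by omega⟩
        have hm3 : ¬ h + 1 ≤ x t₁ q' := by
          apply Nat.find_min hex
          rw [← hm]
          exact Nat.lt_succ_self t₁
        have hm4 := hmono q' (t₁ + 1) t' hm2 (by omega)
        refine ⟨t₁, by omega, ?_, by omega⟩
        rcases hx.step t₁ (by omega) q' with h3 | h3 <;> omega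
      have hs1 : s ≤ t₁ + 1 := by
        rcases hlast with h3 | h3
        · omega
        · by_contra h4
          have h5 := hmono q' (t₁ + 1) (s - 1) (by omega) (by omega)
          omega
      have hlen : h + 1 < (p q').length := by
        rw [hh] at he'
        exact (List.getElem?_eq_some_iff.1 he').1
      obtain ⟨e', he1⟩ : ∃ e', (p q')[h]? = some e' := ⟨(p q')[h], List.getElem?_eq_getElem _⟩
      have hn := h2 q' (h + 1)
      rw [hh] at hab hcnt he'
      obtain ⟨s', hs1', ⟨a', ha'⟩, hsum⟩ := ih t₁ (by omega) (q := q') (e := e') (by omega)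
        (by rw [hx1]; exact he1) (by omega) (by rw [hx1]; omega)
      rw [hx1] at ha' hsum
      obtain ⟨y, s'', rfl⟩ : ∃ y s'', s' = y :: s'' := by
        cases s' with
        | nil => simp at ha'
        | cons y s'' => exact ⟨y, s'', rfl⟩
      rw [List.head?_cons, Option.some.injEq] at ha'
      subst ha'
      refine ⟨(e, ν q' (h + 1 + 1), ν q (x t q + 1)) :: (e', a', ν q' (h + 1)) :: s'', ⟨?_, ?_⟩,
        ⟨_, rfl⟩, ?_⟩
      · intro y hy
        rw [List.mem_cons] at hy
        rcases hy with rfl | hy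
        · exact ⟨hab, hb⟩
        · exact hs1'.1 y hy
      · rw [List.isChain_cons_cons]
        exact ⟨⟨⟨q', h, he1, he'⟩, hn⟩, hs1'.2⟩
      · simp only [List.map_cons, List.sum_cons] at hsum ⊢
        have hw : wt k (e, ν q' (h + 1 + 1), ν q (x t q + 1)) =
            ν q (x t q + 1) - ν q' (h + 1 + 1) + k := rfl
        omega

end Pool.Agent.PR0225
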