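import Pool.Agent.Lib_MP_0225c1.Defs

open MeasureTheory ProbabilityTheory
open scoped ENNReal

namespace Pool.Agent.PR0225

/-- **COUNT0.** An edge has at most `cong p f` predecessors (every path through `f` has no
duplicates, so it contributes at most one). -/
theorem pred_card {E : Type} {n : ℕ} {p : Fin n → List E} (hp : ∀ i, (p i).Nodup) (f : E) :
    ∃ P : Finset E, P.card ≤ cong p f ∧ ∀ e, Fol p e f → e ∈ P := by
  classical
  refine ⟨(Finset.univ.filter fun i => f ∈ p i).biUnion
    (fun i => ((p i)[(p i).idxOf f - 1]?).toFinset), ?_, ?_⟩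
  · refine Finset.card_biUnion_le.trans ?_
    have h1 : ∀ i ∈ Finset.univ.filter (fun i => f ∈ p i),
        (((p i)[(p i).idxOf f - 1]?).toFinset).card ≤ 1 := by
      intro i _
      cases (p i)[(p i).idxOf f - 1]? with
      | none => simp
      | some a => simp
    refine (Finset.sum_le_sum h1).trans ?_
    rw [Finset.sum_const, smul_eq_mul, mul_one]
    unfold cong
    refine le_of_eq ?_
    congr
  · rintro e ⟨i, k, h1, h2⟩
    have hk : k + 1 < (p i).length := by
      rw [List.getElem?_eq_some_iff] at h2
      exact h2.1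
    have hf : (p i)[k + 1] = f := by
      rw [List.getElem?_eq_some_iff] at h2
      exact h2.2
    have hidx : (p i).idxOf f = k + 1 := by
      rw [← hf]
      exact (hp i).idxOf_getElem (k + 1) hk
    rw [Finset.mem_biUnion]
    refine ⟨i, Finset.mem_filter.2 ⟨Finset.mem_univ _, ?_⟩, ?_⟩
    · rw [← hf]
      exact List.getElem_mem hk
    · rw [hidx, Nat.add_sub_cancel, h1]
      simp

/-- **COUNT1.** All edges of a skeleton are upstream of the edge of its head. -/
theorem skel_up {E : Type} {n : ℕ} {p : Fin n → List E} {k T : ℕ} {s : List (E × ℕ × ℕ)}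
    (hs : Skel (Fol p) k T s) {e : E} {a b : ℕ} (he : s.head? = some (e, a, b)) :
    ∀ x ∈ s, Relation.ReflTransGen (Fol p) x.1 e := by
  have key : ∀ (t : List (E × ℕ × ℕ)) (h : E × ℕ × ℕ),
      (h :: t).IsChain (fun x y => Fol p y.1 x.1 ∧ y.2.2 + k ≤ x.2.1) →
      ∀ x ∈ h :: t, Relation.ReflTransGen (Fol p) x.1 h.1 := by
    intro t
    induction t with
    | nil =>
      intro h _ x hx
      rw [List.mem_singleton.1 hx]
    | cons h' t ih =>
      intro h hc x hx
      rw [List.isChain_cons_cons] at hc
      rcases List.mem_cons.1 hx with hx | hx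
      · rw [hx]
      · exact (ih h' hc.2 x hx).tail hc.1.1
  cases s with
  | nil => simp at he
  | cons h t =>
    have h1 : h = (e, a, b) := by simpa using he
    intro x hx
    have h2 := key t h hs.2 x hx
    rw [h1] at h2
    exact h2

/-- **COUNT2.** A skeleton has at most `T + 1` windows: the upper ends of the windows decrease by at
least `k ≥ 1` (`y.2.2 + k ≤ x.2.1 ≤ x.2.2`) and start with at most `T`. -/
theorem skel_length {E : Type} {F : E → E → Prop} {k T : ℕ} (hk : 1 ≤ k)
    {s : List (E × ℕ × ℕ)} (hs : Skel F k T s) : s.length ≤ T + 1 := by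
  have key : ∀ (t : List (E × ℕ × ℕ)) (h : E × ℕ × ℕ), Skel F k T (h :: t) →
      (h :: t).length ≤ h.2.2 + 1 := by
    intro t
    induction t with
    | nil =>
      intro h _
      simp
    | cons h' t ih =>
      intro h hc
      have h1 := hc.2
      rw [List.isChain_cons_cons] at h1
      have h2 : Skel F k T (h' :: t) :=
        ⟨fun x hx => hc.1 x (List.mem_cons_of_mem _ hx), h1.2⟩
      have h3 := ih h' h2
      have h4 := (hc.1 h List.mem_cons_self).1
      have h5 := h1.1.2
      rw [List.length_cons]
      omega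
  cases s with
  | nil => simp
  | cons h t =>
    have h1 := key t h hs
    have h2 := (hs.1 h List.mem_cons_self).2
    omega

/-- **COUNT3.** Number of skeletons of length `m` which start at `e`: `(T + 1) ^ 2` possibilities
for every window (`a ≤ b ≤ T`) and at most `cong ≤ c` predecessors. Induction on `m`: the skeletons
of length `m + 1` are `(e, a, b) :: s'`, `s'` empty (if `m = 0`) or a skeleton of length `m`
starting at a predecessor `e'` of `e`; everything upstream of `e'` is upstream of `e`. -/
theorem skel_count {E : Type} {n : ℕ} {p : Fin n → List E} (hp : ∀ i, (p i).Nodup) (k T c : ℕ)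
    (m : ℕ) : ∀ e : E, (∀ f, Relation.ReflTransGen (Fol p) f e → cong p f ≤ c) →
      ∃ S : Finset (List (E × ℕ × ℕ)), S.card ≤ ((T + 1) ^ 2 * (c + 1)) ^ m ∧
        ∀ s : List (E × ℕ × ℕ), s.length = m → Skel (Fol p) k T s →
          (∃ a b, s.head? = some (e, a, b)) → s ∈ S := by
  classical
  induction m with
  | zero =>
    intro e _
    refine ⟨∅, by simp, fun s hs _ hh => ?_⟩
    obtain ⟨a, b, hab⟩ := hh
    rw [List.length_eq_zero_iff.1 hs] at hab
    simp at hab
  | succ m ih =>
    intro e hc
    obtain ⟨P, hP, hPF⟩ := pred_card hp e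
    have hce : cong p e ≤ c := hc e Relation.ReflTransGen.refl
    have hX : 1 ≤ ((T + 1) ^ 2 * (c + 1)) ^ m := Nat.one_le_pow _ _ (by positivity)
    have hS : ∀ e' : E, ∃ S : Finset (List (E × ℕ × ℕ)), S.card ≤ ((T + 1) ^ 2 * (c + 1)) ^ m ∧
        (Fol p e' e → ∀ s : List (E × ℕ × ℕ), s.length = m → Skel (Fol p) k T s →
          (∃ a b, s.head? = some (e', a, b)) → s ∈ S) := by
      intro e'
      by_cases he' : Fol p e' e
      · obtain ⟨S, h1, h2⟩ := ih e' (fun f hf => hc f (hf.tail he'))
        exact ⟨S, h1, fun _ => h2⟩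
      · exact ⟨∅, by simp, fun h => absurd h he'⟩
    choose S hS1 hS2 using hS
    refine ⟨((Finset.range (T + 1) ×ˢ Finset.range (T + 1)) ×ˢ (insert [] (P.biUnion S))).image
      (fun x => (e, x.1.1, x.1.2) :: x.2), ?_, ?_⟩
    · refine Finset.card_image_le.trans ?_
      rw [Finset.card_product, Finset.card_product, Finset.card_range]
      have h1 : (insert [] (P.biUnion S)).card ≤ (c + 1) * ((T + 1) ^ 2 * (c + 1)) ^ m := by
        refine (Finset.card_insert_le _ _).trans ?_
        have h2 : (P.biUnion S).card ≤ c * ((T + 1) ^ 2 * (c + 1)) ^ m := by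
          refine Finset.card_biUnion_le.trans ?_
          refine (Finset.sum_le_sum (fun i _ => hS1 i)).trans ?_
          rw [Finset.sum_const, smul_eq_mul]
          exact Nat.mul_le_mul_right _ (hP.trans hce)
        calc (P.biUnion S).card + 1 ≤ c * ((T + 1) ^ 2 * (c + 1)) ^ m +
            ((T + 1) ^ 2 * (c + 1)) ^ m := Nat.add_le_add h2 hX
          _ = (c + 1) * ((T + 1) ^ 2 * (c + 1)) ^ m := by ring
      calc (T + 1) * (T + 1) * (insert [] (P.biUnion S)).card ≤
          (T + 1) * (T + 1) * ((c + 1) * ((T + 1) ^ 2 * (c + 1)) ^ m) :=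
            Nat.mul_le_mul_left _ h1
        _ = ((T + 1) ^ 2 * (c + 1)) ^ (m + 1) := by ring
    · intro s hs hsk hh
      obtain ⟨a, b, hab⟩ := hh
      cases s with
      | nil => simp at hab
      | cons x t =>
        have hx : x = (e, a, b) := by simpa using hab
        have hxT := hsk.1 x List.mem_cons_self
        rw [hx] at hxT
        simp only [] at hxT
        rw [Finset.mem_image]
        refine ⟨((a, b), t), ?_, by rw [hx]⟩
        rw [Finset.mem_product, Finset.mem_product, Finset.mem_range, Finset.mem_range]
        have ha : a < T + 1 := by omega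
        have hb : b < T + 1 := by omega
        refine ⟨⟨ha, hb⟩, ?_⟩
        show t ∈ insert [] (P.biUnion S)
        cases t with
        | nil => exact Finset.mem_insert_self _ _
        | cons y t' =>
          refine Finset.mem_insert_of_mem (Finset.mem_biUnion.2 ⟨y.1, ?_, ?_⟩)
          · have h1 := hsk.2
            rw [List.isChain_cons_cons] at h1
            have h2 := h1.1.1
            rw [hx] at h2
            exact hPF _ h2
          · have h1 := hsk.2
            rw [List.isChain_cons_cons] at h1
            have h2 := h1.1.1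
            rw [hx] at h2
            refine hS2 y.1 h2 (y :: t') ?_ ⟨fun z hz => hsk.1 z (List.mem_cons_of_mem _ hz), h1.2⟩
              ⟨y.2.1, y.2.2, rfl⟩
            rw [List.length_cons] at hs ⊢
            exact Nat.succ.inj hs

end Pool.Agent.PR0225
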