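import Pool.Agent.Lib_MP_0225c1.Defs

open MeasureTheory ProbabilityTheory
open scoped ENNReal

namespace Pool.Agent.PR0225

variable {G : Net} {n : ℕ}

theorem fwd_mem_present {C : Coll G n} {ω : Fin n → Sd} {h : Fin n → List ℕ} {e : G.E}
    {i : Fin n} (hi : (info C ω h i).next = some e) :
    info C ω h i ∈ present C ω h (G.src e) :=
  ⟨i, rfl, e, hi, rfl⟩

/-- **FWD1.** The packet chosen by the forwarding rule: it waits for `e` and has priority over all
packets which wait for `e`. (`present` is a finite set; the lexicographic minimum of `(key, id)`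
exists and is unique since the names of the packets are different; a packet which waits for `e` is
in `present C ω h (G.src e)`.) -/
theorem edfFwd_iff (C : Coll G n) (ω : Fin n → Sd) (h : Fin n → List ℕ) (t : ℕ) (e : G.E)
    (i : Fin n) :
    edfFwd G.E t (present C ω h (G.src e)) e = some i.val ↔
      (info C ω h i).next = some e ∧ ∀ i', (info C ω h i').next = some e →
        Pri t (info C ω h i) (info C ω h i') := by
  unfold edfFwd
  constructor
  · intro h1
    split_ifs at h1 with h2
    obtain ⟨h3, h4, h5⟩ := h2.choose_spec
    have h6 : h2.choose.id = i.val := Option.some.inj h1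
    obtain ⟨i0, h7, _⟩ := h3
    have h8 : i0 = i := by
      apply Fin.ext
      rw [← h6, h7]
      rfl
    subst h8
    rw [← h7]
    exact ⟨h4, fun i' hi' => h5 _ (fwd_mem_present hi') hi'⟩
  · rintro ⟨h1, h2⟩
    have h3 : ∃ x ∈ present C ω h (G.src e), x.next = some e ∧
        ∀ y ∈ present C ω h (G.src e), y.next = some e → Pri t x y := by
      refine ⟨info C ω h i, fwd_mem_present h1, h1, ?_⟩
      rintro y ⟨i', rfl, _⟩ hy
      exact h2 i' hy
    rw [dif_pos h3]
    have hsp := h3.choose_spec
    generalize h3.choose = x at hsp ⊢
    obtain ⟨⟨i0, rfl, _⟩, h5, h6⟩ := hsp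
    have h7 := h6 _ (fwd_mem_present h1) h1
    have h9 := h2 i0 h5
    have h10 : (info C ω h i).id = i.val := rfl
    have h11 : (info C ω h i0).id = i0.val := rfl
    unfold Pri at h7 h9
    have h12 : (info C ω h i0).id = i.val := by omega
    exact congrArg some h12

/-- **FWD2.** If some packet waits for `e`, some packet is chosen. -/
theorem edfFwd_exists (C : Coll G n) (ω : Fin n → Sd) (h : Fin n → List ℕ) (t : ℕ) (e : G.E)
    (i : Fin n) (hi : (info C ω h i).next = some e) :
    ∃ i', (info C ω h i').next = some e ∧
      edfFwd G.E t (present C ω h (G.src e)) e = some i'.val := by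
  classical
  obtain ⟨i', h1, h2⟩ := Finset.exists_min_image
    (Finset.univ.filter fun i' : Fin n => (info C ω h i').next = some e)
    (fun i' => toLex (key t (info C ω h i'), i'.val)) ⟨i, by simp [hi]⟩
  have h3 : (info C ω h i').next = some e := (Finset.mem_filter.1 h1).2
  refine ⟨i', h3, ?_⟩
  rw [edfFwd_iff]
  refine ⟨h3, fun i'' hi'' => ?_⟩
  have h4 := h2 i'' (by simp [hi''])
  rw [Prod.Lex.toLex_le_toLex] at h4
  exact h4

/-- **HIST1.** The histories grow by at most one entry, the current time. -/
theorem hist_succ (C : Coll G n) (ω : Fin n → Sd) (t : ℕ) (i : Fin n) :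
    (hist C edf ω (t + 1) i = hist C edf ω t i ++ [t] ∧
        ∃ e, Crosses C edf ω (hist C edf ω t) t i e) ∨
      (hist C edf ω (t + 1) i = hist C edf ω t i ∧
        ¬ ∃ e, Crosses C edf ω (hist C edf ω t) t i e) := by
  by_cases h : ∃ e, Crosses C edf ω (hist C edf ω t) t i e
  · left
    refine ⟨?_, h⟩
    rw [hist, if_pos h]
  · right
    refine ⟨?_, h⟩
    rw [hist, if_neg h]

/-- **HIST2.** length of the histories -/
theorem hist_length (C : Coll G n) (ω : Fin n → Sd) (t : ℕ) (i : Fin n) :
    (hist C edf ω t i).length ≤ (C.path i).length := by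
  induction t with
  | zero => simp [hist]
  | succ t ih =>
    rcases hist_succ C ω t i with ⟨h1, e, h2⟩ | ⟨h1, _⟩
    · rw [h1, List.length_append, List.length_singleton]
      have h3 : (C.path i)[(hist C edf ω t i).length]? = some e := h2.1
      obtain ⟨h4, _⟩ := List.getElem?_eq_some_iff.1 h3
      omega
    · rw [h1]
      exact ih

theorem hist_lt (C : Coll G n) (ω : Fin n → Sd) (t : ℕ) (i : Fin n) :
    ∀ r ∈ hist C edf ω t i, r < t := by
  induction t with
  | zero => simp [hist]
  | succ t ih =>
    rcases hist_succ C ω t i with ⟨h1, _⟩ | ⟨h1, _⟩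
    · rw [h1]
      intro r hr
      rw [List.mem_append, List.mem_singleton] at hr
      rcases hr with hr | hr
      · have := ih r hr
        omega
      · omega
    · rw [h1]
      intro r hr
      have := ih r hr
      omega

/-- **HIST3.** The crossings before time `s` are the history at time `s`. -/
theorem hist_filter (C : Coll G n) (ω : Fin n → Sd) (s t : ℕ) (hst : s ≤ t) (i : Fin n) :
    (hist C edf ω t i).filter (fun r => decide (r < s)) = hist C edf ω s i := by
  induction t, hst using Nat.le_induction with
  | base =>
    rw [List.filter_eq_self]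
    intro r hr
    exact decide_eq_true (hist_lt C ω s i r hr)
  | succ t ht ih =>
    rcases hist_succ C ω t i with ⟨h1, _⟩ | ⟨h1, _⟩
    · rw [h1, List.filter_append, ih]
      have h2 : ¬ t < s := by omega
      simp [h2]
    · rw [h1, ih]

/-- **HIST4.** The histories until the beginning of phase `j` depend only on the random numbers of
the earlier phases.

Proof. Induction on `t`: in step `t < 2 ^ j - 1` the phase is `phase t < j`, so the keys of all
packets agree (`key` uses only `x.seed (phase t)` and the history), hence by `edfFwd_iff` the same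
packets cross. -/
theorem hist_causal (C : Coll G n) (j : ℕ) (ω ω' : Fin n → Sd)
    (h : ∀ i, ∀ j' < j, ω i j' = ω' i j') :
    ∀ t ≤ 2 ^ j - 1, hist C edf ω t = hist C edf ω' t := by
  intro t
  induction t with
  | zero =>
    intro _
    funext i
    simp [hist]
  | succ t ih =>
    intro ht
    have h1 := ih (by omega)
    have h2 : phase t < j := by
      unfold phase
      exact Nat.log_lt_of_lt_pow (by omega) (by omega)
    have hk : ∀ (H : Fin n → List ℕ) (i : Fin n),
        key t (info C ω H i) = key t (info C ω' H i) := by
      intro H i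
      have h3 : (info C ω H i).seed (phase t) = (info C ω' H i).seed (phase t) := h i _ h2
      unfold key
      rw [h3]
      rfl
    have hp : ∀ (H : Fin n → List ℕ) (i i' : Fin n),
        Pri t (info C ω H i) (info C ω H i') ↔ Pri t (info C ω' H i) (info C ω' H i') := by
      intro H i i'
      unfold Pri
      rw [hk H i, hk H i']
      rfl
    have hc : ∀ (H : Fin n → List ℕ) (i : Fin n) (e : G.E),
        Crosses C edf ω H t i e ↔ Crosses C edf ω' H t i e := by
      intro H i e
      have h4 := edfFwd_iff C ω H t e i
      have h5 := edfFwd_iff C ω' H t e i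
      have h6 : edfFwd G.E t (present C ω H (G.src e)) e = some i.val ↔
          edfFwd G.E t (present C ω' H (G.src e)) e = some i.val := by
        rw [h4, h5]
        refine and_congr Iff.rfl (forall_congr' fun i' => ?_)
        exact imp_congr Iff.rfl (hp H i i')
      exact and_congr Iff.rfl h6
    funext i
    rw [hist, hist, ← h1]
    by_cases h7 : ∃ e, Crosses C edf ω (hist C edf ω t) t i e
    · have h8 : ∃ e, Crosses C edf ω' (hist C edf ω t) t i e :=
        h7.imp fun e he => (hc _ i e).1 he
      rw [if_pos h7, if_pos h8]
    · have h8 : ¬ ∃ e, Crosses C edf ω' (hist C edf ω t) t i e :=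
        fun h9 => h7 (h9.imp fun e he => (hc _ i e).2 he)
      rw [if_neg h7, if_neg h8]

end Pool.Agent.PR0225
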