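import Pool.Agent.Lib_MP_0225c1.Val
import Pool.Agent.Lib_MP_0225c1.Avg

open MeasureTheory ProbabilityTheory
open scoped ENNReal

namespace Pool.Agent.PR0225

/-! ### auxiliary lemmas -/

theorem hit_ind_nonneg (P : Prop) : 0 ≤ ind P := by
  unfold ind
  split_ifs <;> norm_num

theorem hit_ind_le (P : Prop) : ind P ≤ 1 := by
  unfold ind
  split_ifs <;> norm_num

theorem hit_ind_false {P : Prop} (h : ¬ P) : ind P = 0 := by
  unfold ind
  rw [if_neg h]

theorem hit_ind_congr {P Q : Prop} (h : P ↔ Q) : ind P = ind Q := by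
  rw [propext h]

theorem hit_val_update {j : ℕ} (η : PS j) (m : Fin (2 ^ j + 1)) (v : Fin (rg j m)) {m' : ℕ}
    (h : m' ≠ m) : val (Function.update η m v) m' = val η m' := by
  unfold val
  split_ifs with h1
  · rw [Function.update_of_ne]
    intro h2
    exact h (congrArg Fin.val h2)
  · rfl

theorem hit_val_self {j : ℕ} (η : PS j) (m : Fin (2 ^ j + 1)) : val η m = (η m : ℕ) := by
  unfold val
  rw [dif_pos m.isLt]

theorem hit_val_lt {j : ℕ} (η : PS j) (m : ℕ) : val η m < rg j m := by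
  unfold val
  split_ifs with h
  · exact (η ⟨m, h⟩).isLt
  · exact rg_pos j m

theorem hit_nu_update {j : ℕ} (η : PS j) (m : Fin (2 ^ j + 1)) (v : Fin (rg j m)) {h : ℕ}
    (hm : h < m) : nu (Function.update η m v) h = nu η h := by
  unfold nu
  congr 1
  refine Finset.sum_congr rfl fun m' hm' => hit_val_update η m v ?_
  have := Finset.mem_range.1 hm'
  omega

theorem hit_nu_step {j : ℕ} (η : PS j) {h h' : ℕ} (hh : h ≤ h') :
    nu η h' = nu η h + ∑ m ∈ Finset.Ioc h h', (K j + val η m) := by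
  induction h', hh using Nat.le_induction with
  | base => simp
  | succ n hn ih =>
    have h1 : Finset.Ioc h (n + 1) = insert (n + 1) (Finset.Ioc h n) := by
      ext i
      simp only [Finset.mem_Ioc, Finset.mem_insert]
      omega
    rw [h1, Finset.sum_insert (by simp), ← add_assoc, add_comm (nu η h), add_assoc, ← ih]
    unfold nu
    rw [Finset.sum_range_succ _ (n + 1)]
    ring

theorem hit_nu_mono {j : ℕ} (η : PS j) {h h' : ℕ} (hh : h ≤ h') : nu η h ≤ nu η h' := by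
  rw [hit_nu_step η hh]
  exact Nat.le_add_right _ _

theorem hit_K_pos (j : ℕ) : 1 ≤ K j := by
  have : 0 < K j := by
    unfold K K0
    positivity
  exact this

theorem hit_le_nu {j : ℕ} (η : PS j) (h : ℕ) : h ≤ nu η h := by
  unfold nu
  have h1 : 1 * h ≤ K j * h := Nat.mul_le_mul_right h (hit_K_pos j)
  omega

theorem hit_none {E : Type} {p : List E} {ν : ℕ → ℕ} {x : E × ℕ × ℕ}
    (h : ¬ ∃ k : ℕ, p[k]? = some x.1) : ¬ Hit p ν x := by
  rintro ⟨k, hk, _⟩
  exact h ⟨k, hk⟩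

/-- **HIT0.** For a path without duplicates the hop is determined by the edge. -/
theorem hit_iff {E : Type} {p : List E} (hp : p.Nodup) {ν : ℕ → ℕ} {x : E × ℕ × ℕ} {k : ℕ}
    (hk : p[k]? = some x.1) : Hit p ν x ↔ x.2.1 ≤ ν (k + 1) ∧ ν (k + 1) ≤ x.2.2 := by
  constructor
  · rintro ⟨k', hk', h1, h2⟩
    obtain ⟨l1, e1⟩ := List.getElem?_eq_some_iff.1 hk
    obtain ⟨l2, e2⟩ := List.getElem?_eq_some_iff.1 hk'
    have h3 : k' = k := (hp.getElem_inj_iff (hi := l2) (hj := l1)).1 (e2.trans e1.symm)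
    subst h3
    exact ⟨h1, h2⟩
  · intro h
    exact ⟨k, hk, h.1, h.2⟩

/-- **HIT1.** Probability of the first hit: `nu η (k + 1) = A η + η 0` with `A` independent of the
coordinate `0` (`rg j 0 = 2 ^ (j - 2)`); use `avg` with `F = 1`, `m = 0`. -/
theorem hit_first {E : Type} {j : ℕ} {p : List E} (hp : p.Nodup) {x : E × ℕ × ℕ}
    (hx : x.2.1 ≤ x.2.2) :
    ∑ η : PS j, ind (Hit p (nu η) x) ≤
      (((x.2.2 : ℝ) - x.2.1 + 1) / 2 ^ (j - 2)) * Fintype.card (PS j) := by
  have hx' : (x.2.1 : ℝ) ≤ x.2.2 := by exact_mod_cast hx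
  by_cases h : ∃ k : ℕ, p[k]? = some x.1
  · obtain ⟨k, hk⟩ := h
    have h1 := avg (j := j) 0 (fun _ => (1 : ℝ)) (fun _ => zero_le_one) (fun _ _ => rfl)
      (fun η => K j * (k + 1) + ∑ m ∈ Finset.range (k + 1), val η (m + 1))
      (fun η v => by
        have : ∀ m ∈ Finset.range (k + 1), val (Function.update η 0 v) (m + 1) = val η (m + 1) :=
          fun m _ => hit_val_update η 0 v (by simp)
        rw [Finset.sum_congr rfl this]) x.2.1 x.2.2 hx
    have h2 : ∀ η : PS j, ind (Hit p (nu η) x) = (1 : ℝ) * ind (x.2.1 ≤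
        (K j * (k + 1) + ∑ m ∈ Finset.range (k + 1), val η (m + 1)) + (η 0 : ℕ) ∧
        (K j * (k + 1) + ∑ m ∈ Finset.range (k + 1), val η (m + 1)) + (η 0 : ℕ) ≤ x.2.2) := by
      intro η
      rw [one_mul]
      apply hit_ind_congr
      rw [hit_iff hp hk]
      have h3 : nu η (k + 1) =
          (K j * (k + 1) + ∑ m ∈ Finset.range (k + 1), val η (m + 1)) + (η 0 : ℕ) := by
        unfold nu
        rw [Finset.sum_range_succ', ← hit_val_self η 0]
        simp only [Fin.val_zero]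
        ring
      rw [h3]
    rw [Finset.sum_congr rfl fun η _ => h2 η]
    have h3 : ((rg j (0 : Fin (2 ^ j + 1)) : ℕ) : ℝ) = 2 ^ (j - 2) := by
      unfold rg
      simp
    rw [h3, Finset.sum_const, Finset.card_univ, nsmul_eq_mul, mul_one] at h1
    exact h1
  · have h1 : ∀ η : PS j, ind (Hit p (nu η) x) = 0 := fun η => hit_ind_false (hit_none h)
    rw [Finset.sum_congr rfl fun η _ => h1 η, Finset.sum_const_zero]
    have h2 : (0 : ℝ) ≤ (x.2.2 : ℝ) - x.2.1 + 1 := by linarith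
    positivity

/-- **HIT2.** Hitting a later window `y` after the window `x`. `f` depends only on the random numbers
up to hop `k + 1`, the hop of the edge of `x`.

Proof. Let `k'` be the hop of `y.1` in `p` (if `y.1` is not in `p` the left side is `0`).
If `k' ≤ k` both windows cannot be hit, because `nu η (k' + 1) ≤ nu η (k + 1) ≤ x.2.2 < y.2.1`: the
left side is `0`. If `k' + 1 > 2 ^ j` then `nu η (k' + 1) ≥ K j * (k' + 1) > 2 ^ j ≥ y.2.2`: the left
side is `0`. Otherwise let `m ∈ (k + 1, k' + 1]` be given by `val_max`. If both windows are hit,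
`y.2.1 - x.2.2 ≤ nu η (k' + 1) - nu η (k + 1) = Σ_{(k+1, k'+1]} (K j + val η m') ≤ 6 (j + 1) rg j m`.
So if `6 (j + 1) rg j m < y.2.1 - x.2.2` the left side is `0`. Otherwise use `avg` for this `m` with
`F = f * ind (Hit x)` (it depends only on the coordinates `≤ k + 1 < m`) and
`A η = nu η (k' + 1) - η m`: the left side is at most `(w / rg j m) * Σ F` with
`w = y.2.2 - y.2.1 + 1`, and `1 / rg j m ≤ 6 (j + 1) / (y.2.1 - x.2.2)`. The bound with the factor
`1` is trivial. -/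
theorem hit_pair {E : Type} {j : ℕ} {p : List E} (hp : p.Nodup) {x y : E × ℕ × ℕ}
    (hy : y.2.1 ≤ y.2.2) (hT : y.2.2 ≤ 2 ^ j) (hxy : x.2.2 < y.2.1) {k : ℕ}
    (hk : p[k]? = some x.1) (f : PS j → ℝ) (hf0 : ∀ η, 0 ≤ f η)
    (hf : ∀ η η' : PS j, (∀ m : Fin (2 ^ j + 1), (m : ℕ) ≤ k + 1 → η m = η' m) → f η = f η') :
    ∑ η : PS j, f η * ind (Hit p (nu η) x) * ind (Hit p (nu η) y) ≤
      rho j x y * ∑ η : PS j, f η * ind (Hit p (nu η) x) := by
  have hF0 : ∀ η : PS j, 0 ≤ f η * ind (Hit p (nu η) x) := fun η =>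
    mul_nonneg (hf0 η) (hit_ind_nonneg _)
  have hS0 : 0 ≤ ∑ η : PS j, f η * ind (Hit p (nu η) x) := Finset.sum_nonneg fun η _ => hF0 η
  have hy' : (y.2.1 : ℝ) ≤ y.2.2 := by exact_mod_cast hy
  have hxy' : (x.2.2 : ℝ) < y.2.1 := by exact_mod_cast hxy
  have hd : (0 : ℝ) < (y.2.1 : ℝ) - x.2.2 := by linarith
  have hw : (0 : ℝ) < (y.2.2 : ℝ) - y.2.1 + 1 := by linarith
  have hq0 : 0 ≤ 6 * ((j : ℝ) + 1) * ((y.2.2 : ℝ) - y.2.1 + 1) / ((y.2.1 : ℝ) - x.2.2) := by
    positivity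
  unfold rho
  rw [min_mul_of_nonneg _ _ hS0]
  refine le_min ?_ ?_
  · rw [one_mul]
    refine Finset.sum_le_sum fun η _ => ?_
    exact mul_le_of_le_one_right (hF0 η) (hit_ind_le _)
  -- the vanishing cases
  have hzero : (∀ η : PS j, ¬ (Hit p (nu η) x ∧ Hit p (nu η) y)) →
      ∑ η : PS j, f η * ind (Hit p (nu η) x) * ind (Hit p (nu η) y) ≤
        6 * ((j : ℝ) + 1) * ((y.2.2 : ℝ) - y.2.1 + 1) / ((y.2.1 : ℝ) - x.2.2) *
          ∑ η : PS j, f η * ind (Hit p (nu η) x) := by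
    intro h
    have h1 : ∀ η : PS j, f η * ind (Hit p (nu η) x) * ind (Hit p (nu η) y) = 0 := by
      intro η
      by_cases h2 : Hit p (nu η) x
      · rw [hit_ind_false fun h3 => h η ⟨h2, h3⟩, mul_zero]
      · rw [hit_ind_false h2, mul_zero, zero_mul]
    rw [Finset.sum_congr rfl fun η _ => h1 η, Finset.sum_const_zero]
    exact mul_nonneg hq0 hS0
  by_cases h : ∃ k' : ℕ, p[k']? = some y.1
  swap
  · exact hzero fun η h1 => hit_none h h1.2
  obtain ⟨k', hk'⟩ := h
  by_cases hkk : k' ≤ k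
  · refine hzero fun η h1 => ?_
    have h2 := ((hit_iff hp hk).1 h1.1).2
    have h3 := ((hit_iff hp hk').1 h1.2).1
    have h4 := hit_nu_mono η (Nat.succ_le_succ hkk)
    simp only [Nat.succ_eq_add_one] at h4
    omega
  by_cases hkj : 2 ^ j < k' + 1
  · refine hzero fun η h1 => ?_
    have h3 := ((hit_iff hp hk').1 h1.2).2
    have h4 := hit_le_nu η (k' + 1)
    omega
  obtain ⟨m, hm1, hm2, hm3⟩ := val_max j (k + 1) (k' + 1) (by omega) (by omega)
  by_cases hgap : 6 * (j + 1) * rg j m < y.2.1 - x.2.2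
  · refine hzero fun η h1 => ?_
    have h2 := ((hit_iff hp hk).1 h1.1).2
    have h3 := ((hit_iff hp hk').1 h1.2).1
    have h4 := hit_nu_step η (h := k + 1) (h' := k' + 1) (by omega)
    have h5 : ∑ m ∈ Finset.Ioc (k + 1) (k' + 1), (K j + val η m) ≤
        ∑ m ∈ Finset.Ioc (k + 1) (k' + 1), (K j + rg j m) :=
      Finset.sum_le_sum fun i _ => Nat.add_le_add_left (hit_val_lt η i).le _
    omega
  -- the main case
  have hmj : m < 2 ^ j + 1 := by omega
  let m' : Fin (2 ^ j + 1) := ⟨m, hmj⟩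
  have hFu : ∀ (η : PS j) (v : Fin (rg j m')),
      f (Function.update η m' v) * ind (Hit p (nu (Function.update η m' v)) x) =
        f η * ind (Hit p (nu η) x) := by
    intro η v
    have h1 : f (Function.update η m' v) = f η := by
      apply hf
      intro i hi
      rw [Function.update_of_ne]
      intro h2
      have h3 : (i : ℕ) = m := congrArg Fin.val h2
      omega
    have h2 : Hit p (nu (Function.update η m' v)) x ↔ Hit p (nu η) x := by
      rw [hit_iff hp hk, hit_iff hp hk, hit_nu_update η m' v (by exact hm1)]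
    rw [h1, hit_ind_congr h2]
  have hAu : ∀ (η : PS j) (v : Fin (rg j m')),
      K j * (k' + 1) + ∑ i ∈ (Finset.range (k' + 1 + 1)).erase m,
        val (Function.update η m' v) i =
      K j * (k' + 1) + ∑ i ∈ (Finset.range (k' + 1 + 1)).erase m, val η i := by
    intro η v
    congr 1
    exact Finset.sum_congr rfl fun i hi => hit_val_update η m' v (Finset.ne_of_mem_erase hi)
  have havg := avg m' (fun η => f η * ind (Hit p (nu η) x)) hF0 hFu
    (fun η => K j * (k' + 1) + ∑ i ∈ (Finset.range (k' + 1 + 1)).erase m, val η i) hAu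
    y.2.1 y.2.2 hy
  have hnu : ∀ η : PS j, nu η (k' + 1) =
      (K j * (k' + 1) + ∑ i ∈ (Finset.range (k' + 1 + 1)).erase m, val η i) + (η m' : ℕ) := by
    intro η
    have h1 : (η m' : ℕ) = val η m := (hit_val_self η m').symm
    have h2 := Finset.sum_erase_add (Finset.range (k' + 1 + 1)) (fun i => val η i)
      (Finset.mem_range.2 (by omega : m < k' + 1 + 1))
    unfold nu
    rw [h1, ← h2]
    ring
  have hL : ∑ η : PS j, f η * ind (Hit p (nu η) x) * ind (Hit p (nu η) y) =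
      ∑ η : PS j, f η * ind (Hit p (nu η) x) * ind (y.2.1 ≤
        (K j * (k' + 1) + ∑ i ∈ (Finset.range (k' + 1 + 1)).erase m, val η i) + (η m' : ℕ) ∧
        (K j * (k' + 1) + ∑ i ∈ (Finset.range (k' + 1 + 1)).erase m, val η i) + (η m' : ℕ) ≤
          y.2.2) := by
    refine Finset.sum_congr rfl fun η _ => ?_
    congr 1
    apply hit_ind_congr
    rw [hit_iff hp hk', hnu η]
  rw [hL]
  refine havg.trans (mul_le_mul_of_nonneg_right ?_ hS0)
  have hrg : (0 : ℝ) < (rg j m' : ℝ) := by exact_mod_cast rg_pos j m'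
  rw [div_le_div_iff₀ hrg hd]
  have h1 : (y.2.1 : ℝ) - x.2.2 ≤ 6 * ((j : ℝ) + 1) * (rg j m : ℝ) := by
    have h2 : y.2.1 ≤ 6 * (j + 1) * rg j m + x.2.2 := by omega
    have h3 : (y.2.1 : ℝ) ≤ 6 * ((j : ℝ) + 1) * (rg j m : ℝ) + x.2.2 := by exact_mod_cast h2
    linarith
  calc ((y.2.2 : ℝ) - y.2.1 + 1) * ((y.2.1 : ℝ) - x.2.2)
      ≤ ((y.2.2 : ℝ) - y.2.1 + 1) * (6 * ((j : ℝ) + 1) * (rg j m : ℝ)) :=
        mul_le_mul_of_nonneg_left h1 hw.le
    _ = 6 * ((j : ℝ) + 1) * ((y.2.2 : ℝ) - y.2.1 + 1) * (rg j m' : ℝ) := by ring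

end Pool.Agent.PR0225
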