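import Pool.Agent.Lib_MP_0225c1.Pgf

open MeasureTheory ProbabilityTheory
open scoped ENNReal

namespace Pool.Agent.PR0225

open Classical in
private theorem multi_ind_factor (u : ℝ) {n : ℕ} (P : Fin n → Prop) :
    ∏ i, (1 + u * ind (P i)) = (1 + u) ^ (Finset.univ.filter fun i => P i).card := by
  have h : ∀ i, (1 + u * ind (P i)) = if P i then (1 + u) else 1 := by
    intro i
    unfold ind
    by_cases hi : P i
    · rw [if_pos hi, if_pos hi, mul_one]
    · rw [if_neg hi, if_neg hi, mul_zero, add_zero]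
  rw [Finset.prod_congr rfl fun i _ => h i, Finset.prod_ite, Finset.prod_const, Finset.prod_const_one,
    mul_one]

private theorem multi_prod_gf {E : Type} {n j : ℕ} (p : Fin n → List E) (η : Fin n → PS j)
    (s : List (E × ℕ × ℕ)) :
    ∏ i, gf (p i) s (η i) = (1 + uu j) ^ (s.map (cnt p fun i => nu (η i))).sum := by
  induction s with
  | nil => simp [gf]
  | cons x s ih =>
    have h1 : ∀ i, gf (p i) (x :: s) (η i) =
        (1 + uu j * ind (Hit (p i) (nu (η i)) x)) * gf (p i) s (η i) := by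
      intro i
      simp [gf]
    rw [Finset.prod_congr rfl fun i _ => h1 i, Finset.prod_mul_distrib, ih, List.map_cons,
      List.sum_cons, pow_add, multi_ind_factor]
    rfl

private theorem multi_gf_reverse {E : Type} {j : ℕ} (p : List E) (s : List (E × ℕ × ℕ)) (η : PS j) :
    gf p s.reverse η = gf p s η := by
  unfold gf
  exact ((List.reverse_perm s).map _).prod_eq

private theorem multi_gf_nonneg {E : Type} {j : ℕ} (p : List E) (s : List (E × ℕ × ℕ)) (η : PS j) :
    0 ≤ gf p s η := by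
  unfold gf
  apply List.prod_nonneg
  intro a ha
  rw [List.mem_map] at ha
  obtain ⟨y, _, rfl⟩ := ha
  have h1 : 0 ≤ ind (Hit p (nu η) y) := by
    unfold ind
    split_ifs <;> norm_num
  have h2 : 0 ≤ uu j := by unfold uu; positivity
  positivity

private theorem multi_sum_swap {A : Type} {n : ℕ} (g : Fin n → A → ℝ) (s : List A) :
    ∑ i, (s.map (g i)).sum = (s.map fun x => ∑ i, g i x).sum := by
  induction s with
  | nil => simp
  | cons x s ih =>
    simp only [List.map_cons, List.sum_cons]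
    rw [Finset.sum_add_distrib, ih]

private theorem multi_exp_le (u : ℝ) (h0 : 0 ≤ u) (h1 : u ≤ 1) : Real.exp (u / 2) ≤ 1 + u := by
  have h2 : 1 - u / 2 ≤ Real.exp (-(u / 2)) := by
    have := Real.add_one_le_exp (-(u / 2))
    linarith
  have h3 : Real.exp (u / 2) * Real.exp (-(u / 2)) = 1 := by
    rw [← Real.exp_add]; simp
  have h4 : 0 < Real.exp (u / 2) := Real.exp_pos _
  have h5 : Real.exp (u / 2) * (1 - u / 2) ≤ 1 :=
    (mul_le_mul_of_nonneg_left h2 h4.le).trans h3.le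
  have h6 : (1 : ℝ) ≤ (1 + u) * (1 - u / 2) := by nlinarith
  have h7 : 0 < 1 - u / 2 := by linarith
  have h8 : Real.exp (u / 2) * (1 - u / 2) ≤ (1 + u) * (1 - u / 2) := h5.trans h6
  exact le_of_mul_le_mul_right h8 h7

open Classical in
private theorem multi_one {E : Type} {n j : ℕ} (p : Fin n → List E) (hp : ∀ i, (p i).Nodup)
    (s : List (E × ℕ × ℕ)) (hs : Skel (Fol p) (K j) (2 ^ j) s) (i : Fin n) :
    ∑ η : PS j, gf (p i) s η ≤
      Real.exp (2 * uu j * (s.map fun y => if y.1 ∈ p i then ((y.2.2 : ℝ) - y.2.1 + 1) / 2 ^ (j - 2)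
        else 0).sum) * Fintype.card (PS j) := by
  have hK : 1 ≤ K j := by
    unfold K K0
    exact Nat.succ_le_of_lt (by positivity)
  have h1 : (s.reverse).IsChain (fun x y => x.2.2 < y.2.1) := by
    rw [List.isChain_reverse]
    exact hs.2.imp fun x y h => by
      have := h.2
      show y.2.2 < x.2.1
      omega
  have h2 : ∀ y ∈ s.reverse, y.2.1 ≤ y.2.2 ∧ y.2.2 ≤ 2 ^ j := by
    intro y hy
    exact hs.1 y (List.mem_reverse.1 hy)
  have h3 := pgf (j := j) (hp i) s.reverse h1 h2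
  have h4 : (s.reverse.map fun y => if y.1 ∈ p i then ((y.2.2 : ℝ) - y.2.1 + 1) / 2 ^ (j - 2)
        else 0).sum = (s.map fun y => if y.1 ∈ p i then ((y.2.2 : ℝ) - y.2.1 + 1) / 2 ^ (j - 2)
        else 0).sum := ((List.reverse_perm s).map _).sum_eq
  rw [h4] at h3
  have h5 : ∑ η : PS j, gf (p i) s.reverse η = ∑ η : PS j, gf (p i) s η :=
    Finset.sum_congr rfl fun η _ => multi_gf_reverse (p i) s η
  rw [h5] at h3
  refine h3.trans ?_
  apply mul_le_mul_of_nonneg_right _ (by positivity)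
  have := Real.add_one_le_exp (2 * uu j * (s.map fun y => if y.1 ∈ p i then
    ((y.2.2 : ℝ) - y.2.1 + 1) / 2 ^ (j - 2) else 0).sum)
  linarith

open Classical in
private theorem multi_cong {E : Type} {n j : ℕ} (p : Fin n → List E) (s : List (E × ℕ × ℕ))
    (hw : ∀ x ∈ s, x.2.1 ≤ x.2.2) (hc : ∀ x ∈ s, 8 * cong p x.1 ≤ 2 ^ (j - 2)) :
    (s.map fun x => ∑ i, if x.1 ∈ p i then ((x.2.2 : ℝ) - x.2.1 + 1) / 2 ^ (j - 2) else 0).sum ≤
      (s.map fun x => ((x.2.2 : ℝ) - x.2.1 + 1) / 8).sum := by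
  apply List.sum_le_sum
  intro x hx
  have h1 : (∑ i, if x.1 ∈ p i then ((x.2.2 : ℝ) - x.2.1 + 1) / 2 ^ (j - 2) else 0) =
      (cong p x.1 : ℝ) * (((x.2.2 : ℝ) - x.2.1 + 1) / 2 ^ (j - 2)) := by
    rw [← Finset.sum_filter, Finset.sum_const, nsmul_eq_mul]
    unfold cong
    congr 2
  rw [h1]
  have h2 : (8 * (cong p x.1 : ℝ)) ≤ 2 ^ (j - 2) := by exact_mod_cast hc x hx
  have h3 : (x.2.1 : ℝ) ≤ x.2.2 := by exact_mod_cast hw x hx
  have h4 : (0 : ℝ) < 2 ^ (j - 2) := by positivity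
  have h5 : (0 : ℝ) ≤ (x.2.2 : ℝ) - x.2.1 + 1 := by linarith
  rw [← mul_div_assoc, div_le_div_iff₀ h4 (by norm_num)]
  nlinarith

private theorem multi_final {E : Type} (k : ℕ) (hk : 1 ≤ k) (u : ℝ) (hu : 0 ≤ u)
    (s : List (E × ℕ × ℕ)) (hw : ∀ x ∈ s, x.2.1 ≤ x.2.2) :
    2 * u * (s.map fun x => ((x.2.2 : ℝ) - x.2.1 + 1) / 8).sum -
      u / 2 * (((s.map (wt k)).sum : ℕ) : ℝ) ≤ -(u / 4) * (k * s.length) := by
  induction s with
  | nil => simp
  | cons x s ih =>
    have ih' := ih fun y hy => hw y (List.mem_cons_of_mem _ hy)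
    have hx := hw x List.mem_cons_self
    have h3 : (x.2.1 : ℝ) ≤ x.2.2 := by exact_mod_cast hx
    have hk' : (1 : ℝ) ≤ k := by exact_mod_cast hk
    have h4 : ((wt k x : ℕ) : ℝ) = (x.2.2 : ℝ) - x.2.1 + k := by
      unfold wt
      rw [Nat.cast_add, Nat.cast_sub hx]
    simp only [List.map_cons, List.sum_cons, List.length_cons]
    rw [Nat.cast_add, h4, Nat.cast_add, Nat.cast_one]
    nlinarith [mul_nonneg hu (sub_nonneg.2 h3), mul_nonneg hu (sub_nonneg.2 hk')]

open Classical in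
/-- **MULTI.** Chernoff bound for one skeleton, all packets.

Proof. Let `u = uu j ∈ (0, 1]`, `w x = x.2.2 - x.2.1 + 1`, `m = Y + Σ_s wt`, `Y = 2 ^ (j - 2)`.
`Σ_x cnt x = Σ_i #{x ∈ s : Hit (p i) (nu (η i)) x}`, so for bad `η` the product
`Π_i gf (p i) s (η i) = (1 + u) ^ (Σ cnt) ≥ (1 + u) ^ m` (`gf` does not depend on the order of the
list, so `pgf` applies to `s.reverse`, which is a chain for `x.2.2 < y.2.1`, as `1 ≤ K j`).
Summing over `η : Fin n → PS j` (the sum of a product is the product of the sums,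
`Finset.prod_univ_sum` / `Fintype.prod_sum`), `#bad * (1 + u) ^ m ≤ Π_i Σ_η gf (p i) s η
≤ Π_i (1 + 2 u Σ_{x ∈ s, x.1 ∈ p i} w x / 2 ^ (j - 2)) * card ≤
exp (2 u Σ_x cong p x.1 * w x / 2 ^ (j - 2)) * card ≤ exp ((u / 4) Σ_x w x) * card`, by
`8 * cong ≤ 2 ^ (j - 2)`. Also `(1 + u) ^ m ≥ exp ((u / 2) m)` (`exp (u / 2) ≤ 1 + u` for
`0 ≤ u ≤ 1`). Finally for every `x`: `-(u / 2) * wt + (u / 4) * w ≤ -(u / 4) * K j`, because
`wt = w - 1 + K j` and `(u / 4) w + (u / 2) (K j - 1) ≥ (u / 4) K j` (`w ≥ 1`, `K j ≥ 1`). -/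
theorem multi {E : Type} {n j : ℕ} (p : Fin n → List E) (hp : ∀ i, (p i).Nodup)
    (s : List (E × ℕ × ℕ)) (hs : Skel (Fol p) (K j) (2 ^ j) s)
    (hc : ∀ x ∈ s, 8 * cong p x.1 ≤ 2 ^ (j - 2)) :
    ((Finset.univ.filter fun η : Fin n → PS j =>
        BadSk p (fun i => nu (η i)) (K j) (2 ^ (j - 2)) s).card : ℝ) ≤
      Real.exp (-(uu j / 2) * 2 ^ (j - 2) - (uu j / 4) * (K j * s.length)) *
        Fintype.card (Fin n → PS j) := by
  have hu0 : 0 ≤ uu j := by unfold uu; positivity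
  have hu1 : uu j ≤ 1 := by
    unfold uu
    rw [div_le_one (by positivity)]
    have : (0 : ℝ) ≤ j := Nat.cast_nonneg j
    nlinarith
  have hK : 1 ≤ K j := by
    unfold K K0
    exact Nat.succ_le_of_lt (by positivity)
  set B := Finset.univ.filter fun η : Fin n → PS j =>
        BadSk p (fun i => nu (η i)) (K j) (2 ^ (j - 2)) s with hB
  set m : ℕ := 2 ^ (j - 2) + (s.map (wt (K j))).sum with hm
  have h1 : (B.card : ℝ) * (1 + uu j) ^ m ≤ ∑ η : Fin n → PS j, ∏ i, gf (p i) s (η i) := by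
    calc (B.card : ℝ) * (1 + uu j) ^ m = ∑ η ∈ B, (1 + uu j) ^ m := by
          rw [Finset.sum_const, nsmul_eq_mul]
      _ ≤ ∑ η ∈ B, ∏ i, gf (p i) s (η i) := by
          apply Finset.sum_le_sum
          intro η hη
          rw [multi_prod_gf]
          apply pow_le_pow_right₀ (by linarith)
          rw [hB, Finset.mem_filter] at hη
          exact hη.2
      _ ≤ ∑ η : Fin n → PS j, ∏ i, gf (p i) s (η i) := by
          apply Finset.sum_le_sum_of_subset_of_nonneg (Finset.subset_univ _)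
          intro η _ _
          exact Finset.prod_nonneg fun i _ => multi_gf_nonneg _ _ _
  have h2 : ∑ η : Fin n → PS j, ∏ i, gf (p i) s (η i) = ∏ i, ∑ η : PS j, gf (p i) s η := by
    rw [Finset.prod_univ_sum, Fintype.piFinset_univ]
  have h3 : ∏ i, ∑ η : PS j, gf (p i) s η ≤
      Real.exp (2 * uu j * (s.map fun x => ((x.2.2 : ℝ) - x.2.1 + 1) / 8).sum) *
        Fintype.card (Fin n → PS j) := by
    calc ∏ i, ∑ η : PS j, gf (p i) s η ≤ ∏ i : Fin n, (Real.exp (2 * uu j * (s.map fun y =>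
          if y.1 ∈ p i then ((y.2.2 : ℝ) - y.2.1 + 1) / 2 ^ (j - 2)
          else 0).sum) * Fintype.card (PS j)) := by
          apply Finset.prod_le_prod
          · intro i _
            exact Finset.sum_nonneg fun η _ => multi_gf_nonneg _ _ _
          · intro i _
            exact multi_one p hp s hs i
      _ = Real.exp (2 * uu j * (s.map fun x => ∑ i, if x.1 ∈ p i then
            ((x.2.2 : ℝ) - x.2.1 + 1) / 2 ^ (j - 2) else 0).sum) *
            Fintype.card (Fin n → PS j) := by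
          rw [Finset.prod_mul_distrib, ← Real.exp_sum, ← Finset.mul_sum, multi_sum_swap,
            Finset.prod_const, Finset.card_univ, Fintype.card_fun, Fintype.card_fin]
          push_cast
          rfl
      _ ≤ _ := by
          apply mul_le_mul_of_nonneg_right _ (by positivity)
          apply Real.exp_le_exp.2
          apply mul_le_mul_of_nonneg_left _ (by positivity)
          exact multi_cong p s (fun x hx => (hs.1 x hx).1) hc
  have h4 : Real.exp (uu j / 2 * m) ≤ (1 + uu j) ^ m := by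
    have := multi_exp_le (uu j) hu0 hu1
    calc Real.exp (uu j / 2 * m) = Real.exp (uu j / 2) ^ m := by
          rw [mul_comm, Real.exp_nat_mul]
      _ ≤ _ := pow_le_pow_left₀ (Real.exp_pos _).le this _
  have h5 : (B.card : ℝ) * Real.exp (uu j / 2 * m) ≤
      Real.exp (2 * uu j * (s.map fun x => ((x.2.2 : ℝ) - x.2.1 + 1) / 8).sum) *
        Fintype.card (Fin n → PS j) :=
    (mul_le_mul_of_nonneg_left h4 (Nat.cast_nonneg _)).trans ((h1.trans h2.le).trans h3)
  have h6 : (B.card : ℝ) ≤ Real.exp (2 * uu j *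
      (s.map fun x => ((x.2.2 : ℝ) - x.2.1 + 1) / 8).sum - uu j / 2 * m) *
        Fintype.card (Fin n → PS j) := by
    rw [sub_eq_add_neg, Real.exp_add, Real.exp_neg]
    rw [mul_right_comm, ← div_eq_mul_inv, le_div_iff₀ (Real.exp_pos _)]
    exact h5
  refine h6.trans ?_
  apply mul_le_mul_of_nonneg_right _ (by positivity)
  apply Real.exp_le_exp.2
  have h7 := multi_final (K j) hK (uu j) hu0 s (fun x hx => (hs.1 x hx).1)
  rw [hm]
  push_cast at h7 ⊢
  nlinarith [h7]

end Pool.Agent.PR0225
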