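import Pool.Agent.Lib_MP_0225c1.Defs

open MeasureTheory ProbabilityTheory
open scoped ENNReal

namespace Pool.Agent.PR0225

private theorem rho_harm (j : ℕ) : ∑ z ∈ Finset.Ioc (0 : ℕ) (2 ^ j), (1 : ℝ) / (z : ℝ) ≤ (j : ℝ) + 1 := by
  induction j with
  | zero =>
    have h0 : Finset.Ioc (0 : ℕ) (2 ^ 0) = {1} := by decide
    rw [h0]
    simp
  | succ j ih =>
    have h1 : (0 : ℕ) ≤ 2 ^ j := Nat.zero_le _
    have h2 : (2 : ℕ) ^ j ≤ 2 ^ (j + 1) := Nat.pow_le_pow_right (by norm_num) (by omega)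
    rw [← Finset.sum_Ioc_consecutive (fun z : ℕ => (1 : ℝ) / (z : ℝ)) h1 h2]
    have h3 : ∑ z ∈ Finset.Ioc ((2 : ℕ) ^ j) (2 ^ (j + 1)), (1 : ℝ) / (z : ℝ) ≤ 1 := by
      have h4 : ∀ z ∈ Finset.Ioc ((2 : ℕ) ^ j) (2 ^ (j + 1)), (1 : ℝ) / (z : ℝ) ≤ 1 / 2 ^ j := by
        intro z hz
        rw [Finset.mem_Ioc] at hz
        apply one_div_le_one_div_of_le (by positivity)
        have : ((2 ^ j : ℕ) : ℝ) ≤ (z : ℝ) := by exact_mod_cast hz.1.le
        simpa using this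
      refine (Finset.sum_le_card_nsmul _ _ _ h4).trans ?_
      rw [Nat.card_Ioc, pow_succ]
      have : 2 ^ j * 2 - 2 ^ j = 2 ^ j := by omega
      rw [this, nsmul_eq_mul]
      push_cast
      have hp : (0 : ℝ) < 2 ^ j := by positivity
      rw [mul_one_div_cancel hp.ne']
    push_cast
    linarith

private theorem rho_harm' (j a : ℕ) :
    ∑ t ∈ Finset.Ioc (a : ℕ) (2 ^ j), (1 : ℝ) / ((t : ℝ) - a) ≤ (j : ℝ) + 1 := by
  rcases le_total (2 ^ j) a with h | h
  · rw [Finset.Ioc_eq_empty_of_le h]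
    simp
    positivity
  · have h1 : ∑ t ∈ Finset.Ioc a (2 ^ j), (1 : ℝ) / ((t : ℝ) - a) =
        ∑ z ∈ Finset.Ioc (0 : ℕ) (2 ^ j - a), (1 : ℝ) / (z : ℝ) := by
      symm
      refine Finset.sum_bij (fun z _ => z + a) ?_ ?_ ?_ ?_
      · intro z hz
        rw [Finset.mem_Ioc] at hz ⊢
        omega
      · intro z _ z' _ h
        omega
      · intro t ht
        rw [Finset.mem_Ioc] at ht
        exact ⟨t - a, by rw [Finset.mem_Ioc]; omega, by omega⟩
      · intro z _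
        push_cast
        congr 1
        ring
    rw [h1]
    refine le_trans ?_ (rho_harm j)
    refine Finset.sum_le_sum_of_subset_of_nonneg ?_ ?_
    · intro z hz
      rw [Finset.mem_Ioc] at hz ⊢
      omega
    · intro z _ _
      positivity

private theorem rho_one {E : Type} (j : ℕ) (x y : E × ℕ × ℕ) (h1 : x.2.2 < y.2.1)
    (h2 : y.2.1 ≤ y.2.2) :
    rho j x y ≤ 12 * ((j : ℝ) + 1) *
      ∑ t ∈ Finset.Icc y.2.1 y.2.2, (1 : ℝ) / ((t : ℝ) - x.2.2) := by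
  obtain ⟨e, a', a⟩ := x
  obtain ⟨f, b, d⟩ := y
  simp only at h1 h2
  simp only [rho]
  obtain ⟨g, hg⟩ : ∃ g, b = a + g := ⟨b - a, by omega⟩
  obtain ⟨w, hw⟩ : ∃ w, d + 1 = b + w := ⟨d + 1 - b, by omega⟩
  have hg1 : 1 ≤ g := by omega
  have hw1 : 1 ≤ w := by omega
  have hgR : (1 : ℝ) ≤ (g : ℝ) := by exact_mod_cast hg1
  have hwR : (1 : ℝ) ≤ (w : ℝ) := by exact_mod_cast hw1
  have hj : (0 : ℝ) ≤ (j : ℝ) := Nat.cast_nonneg _
  have hb : (b : ℝ) = a + g := by rw [hg]; push_cast; ring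
  have hd : (d : ℝ) + 1 = b + w := by exact_mod_cast hw
  have key : ∀ m : ℕ, m ≤ w → m ≤ g → (m : ℝ) / (2 * g) ≤
      ∑ t ∈ Finset.Icc b d, (1 : ℝ) / ((t : ℝ) - a) := by
    intro m hmw hmg
    have h3 : ∑ t ∈ Finset.Ico b (b + m), (1 : ℝ) / ((t : ℝ) - a) ≤
        ∑ t ∈ Finset.Icc b d, (1 : ℝ) / ((t : ℝ) - a) := by
      refine Finset.sum_le_sum_of_subset_of_nonneg ?_ ?_
      · intro t ht
        rw [Finset.mem_Ico] at ht
        rw [Finset.mem_Icc]
        omega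
      · intro t ht _
        rw [Finset.mem_Icc] at ht
        have : (a : ℝ) ≤ (t : ℝ) := by exact_mod_cast (by omega : a ≤ t)
        apply div_nonneg zero_le_one
        linarith
    refine le_trans ?_ h3
    have h4 : ∀ t ∈ Finset.Ico b (b + m), (1 : ℝ) / (2 * g) ≤ (1 : ℝ) / ((t : ℝ) - a) := by
      intro t ht
      rw [Finset.mem_Ico] at ht
      have h5 : (b : ℝ) ≤ (t : ℝ) := by exact_mod_cast ht.1
      have h6 : (t : ℝ) ≤ (b : ℝ) + g := by exact_mod_cast (by omega : t ≤ b + g)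
      apply one_div_le_one_div_of_le
      · linarith
      · linarith
    have h7 := Finset.card_nsmul_le_sum _ _ _ h4
    rw [Nat.card_Ico, nsmul_eq_mul] at h7
    have h8 : b + m - b = m := by omega
    rw [h8] at h7
    calc (m : ℝ) / (2 * g) = m * (1 / (2 * g)) := by ring
      _ ≤ _ := h7
  rcases le_total w g with hwg | hwg
  · refine (min_le_right _ _).trans ?_
    have h9 := key w le_rfl hwg
    have h10 : 6 * ((j : ℝ) + 1) * ((d : ℝ) - b + 1) / ((b : ℝ) - a) =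
        12 * ((j : ℝ) + 1) * ((w : ℝ) / (2 * g)) := by
      have e1 : (d : ℝ) - b + 1 = w := by linarith
      have e2 : (b : ℝ) - a = g := by linarith
      rw [e1, e2]
      field_simp
      ring
    rw [h10]
    exact mul_le_mul_of_nonneg_left h9 (by positivity)
  · refine (min_le_left _ _).trans ?_
    have h9 := key g hwg le_rfl
    have h10 : (g : ℝ) / (2 * g) = 1 / 2 := by field_simp
    rw [h10] at h9
    have h11 : 12 * ((j : ℝ) + 1) * (1 / 2) ≤ 12 * ((j : ℝ) + 1) *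
        ∑ t ∈ Finset.Icc b d, (1 : ℝ) / ((t : ℝ) - a) :=
      mul_le_mul_of_nonneg_left h9 (by positivity)
    refine le_trans ?_ h11
    nlinarith

private theorem rho_ind {E : Type} (j : ℕ) (x : E × ℕ × ℕ) (l : List (E × ℕ × ℕ)) :
    ∀ x' : E × ℕ × ℕ, x.2.2 ≤ x'.2.2 →
    (x' :: l).IsChain (fun x y => x.2.2 < y.2.1) →
    (∀ y ∈ l, y.2.1 ≤ y.2.2 ∧ y.2.2 ≤ 2 ^ j) →
    (l.map (rho j x)).sum ≤ 12 * ((j : ℝ) + 1) *
      ∑ t ∈ Finset.Ioc x'.2.2 (2 ^ j), (1 : ℝ) / ((t : ℝ) - x.2.2) := by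
  induction l with
  | nil =>
    intro x' hx' _ _
    simp only [List.map_nil, List.sum_nil]
    apply mul_nonneg (by positivity)
    apply Finset.sum_nonneg
    intro t ht
    rw [Finset.mem_Ioc] at ht
    have : (x.2.2 : ℝ) ≤ (t : ℝ) := by exact_mod_cast (by omega : x.2.2 ≤ t)
    apply div_nonneg zero_le_one
    linarith
  | cons y l ih =>
    intro x' hx' hc hw
    rw [List.isChain_cons_cons] at hc
    obtain ⟨hc1, hc2⟩ := hc
    have hy := hw y (by simp)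
    have h1 := ih y (by omega) hc2 (fun z hz => hw z (by simp [hz]))
    have h2 := rho_one j x y (by omega) hy.1
    rw [List.map_cons, List.sum_cons]
    have h3 : ∑ t ∈ Finset.Icc y.2.1 y.2.2, (1 : ℝ) / ((t : ℝ) - x.2.2) +
        ∑ t ∈ Finset.Ioc y.2.2 (2 ^ j), (1 : ℝ) / ((t : ℝ) - x.2.2) ≤
        ∑ t ∈ Finset.Ioc x'.2.2 (2 ^ j), (1 : ℝ) / ((t : ℝ) - x.2.2) := by
      rw [← Finset.sum_union]
      · refine Finset.sum_le_sum_of_subset_of_nonneg ?_ ?_
        · intro t ht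
          rw [Finset.mem_union, Finset.mem_Icc, Finset.mem_Ioc] at ht
          rw [Finset.mem_Ioc]
          omega
        · intro t ht _
          rw [Finset.mem_Ioc] at ht
          have : (x.2.2 : ℝ) ≤ (t : ℝ) := by exact_mod_cast (by omega : x.2.2 ≤ t)
          apply div_nonneg zero_le_one
          linarith
      · rw [Finset.disjoint_left]
        intro t ht ht'
        rw [Finset.mem_Icc] at ht
        rw [Finset.mem_Ioc] at ht'
        omega
    have h4 := mul_le_mul_of_nonneg_left h3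
      (by positivity : (0 : ℝ) ≤ 12 * ((j : ℝ) + 1))
    rw [mul_add] at h4
    linarith

/-- **RHO.** Sum of the bounds `rho` over the windows after `x` (in increasing time).

Proof. Put `c = 6 (j + 1)`. For a window `y` with `g = y.2.1 - x.2.2 ≥ 1`, `w = y.2.2 - y.2.1 + 1`:
`rho j x y ≤ 2 c Σ_{z ∈ [g, g + w - 1]} 1 / z`. Indeed, if `w ≤ g`, the sum is at least
`w / (g + w) ≥ w / (2 g)`; if `w > g`, the sum is at least `Σ_{z ∈ [g, 2 g - 1]} 1 / z ≥ 1 / 2` and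
`rho ≤ 1 ≤ 2 c * (1 / 2)`. The intervals `[g, g + w - 1] = [y.2.1 - x.2.2, y.2.2 - x.2.2]` for the
different windows are disjoint and contained in `[1, 2 ^ j]`, and
`Σ_{z=1}^{2^j} 1 / z ≤ j + 1`. (Best: prove by induction on the list, generalising the lower end
`z₀`: `Σ rho ≤ 2 c Σ_{z = z₀}^{2^j} 1 / z` if all windows are after `x.2.2 + z₀ - 1`.) -/
theorem rho_sum {E : Type} (j : ℕ) (x : E × ℕ × ℕ) (l : List (E × ℕ × ℕ))
    (hl : (x :: l).IsChain (fun x y => x.2.2 < y.2.1))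
    (hw : ∀ y ∈ l, y.2.1 ≤ y.2.2 ∧ y.2.2 ≤ 2 ^ j) :
    (l.map (rho j x)).sum ≤ 12 * ((j : ℝ) + 1) ^ 2 := by
  have h1 := rho_ind j x l x le_rfl hl hw
  have h2 := mul_le_mul_of_nonneg_left (rho_harm' j x.2.2)
    (by positivity : (0 : ℝ) ≤ 12 * ((j : ℝ) + 1))
  refine (h1.trans h2).trans (le_of_eq ?_)
  ring

end Pool.Agent.PR0225
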