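import Pool.Agent.Lib_MP_0225c1.Hit
import Pool.Agent.Lib_MP_0225c1.Rho

open MeasureTheory ProbabilityTheory
open scoped ENNReal

namespace Pool.Agent.PR0225

/-- `(1 + u) ^ (number of windows hit)` -/
noncomputable def gf {E : Type} {j : ℕ} (p : List E) (l : List (E × ℕ × ℕ)) (η : PS j) : ℝ :=
  (l.map fun y => 1 + uu j * ind (Hit p (nu η) y)).prod

theorem pgf_uu_pos (j : ℕ) : 0 < uu j := by
  unfold uu
  positivity

theorem pgf_uu_two (j : ℕ) : 2 * uu j * (12 * ((j : ℝ) + 1) ^ 2) = 1 := by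
  unfold uu
  field_simp
  norm_num

theorem pgf_gf_nonneg {E : Type} {j : ℕ} (p : List E) (l : List (E × ℕ × ℕ)) (η : PS j) :
    0 ≤ gf p l η := by
  unfold gf
  refine List.prod_nonneg ?_
  intro a ha
  rw [List.mem_map] at ha
  obtain ⟨y, _, rfl⟩ := ha
  have h1 := pgf_uu_pos j
  have h2 := hit_ind_nonneg (Hit p (nu η) y)
  nlinarith [mul_nonneg h1.le h2]

theorem pgf_gf_cons {E : Type} {j : ℕ} (p : List E) (y : E × ℕ × ℕ) (l : List (E × ℕ × ℕ))
    (η : PS j) : gf p (y :: l) η = gf p l η + uu j * (ind (Hit p (nu η) y) * gf p l η) := by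
  unfold gf
  rw [List.map_cons, List.prod_cons]
  ring

theorem pgf_nu_congr {j : ℕ} {η η' : PS j} {h : ℕ}
    (hh : ∀ m : Fin (2 ^ j + 1), (m : ℕ) ≤ h → η m = η' m) : nu η h = nu η' h := by
  unfold nu
  congr 1
  refine Finset.sum_congr rfl fun m hm => ?_
  have hm' := Finset.mem_range.1 hm
  unfold val
  split_ifs with h1
  · rw [hh ⟨m, h1⟩ (by simp only; omega)]
  · rfl

theorem pgf_rho_nonneg {E : Type} (j : ℕ) {x y : E × ℕ × ℕ} (h : x.2.2 < y.2.1)
    (hy : y.2.1 ≤ y.2.2) : 0 ≤ rho j x y := by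
  unfold rho
  have h1 : (x.2.2 : ℝ) < y.2.1 := by exact_mod_cast h
  have h2 : (y.2.1 : ℝ) ≤ y.2.2 := by exact_mod_cast hy
  refine le_min zero_le_one ?_
  apply div_nonneg
  · apply mul_nonneg
    · positivity
    · linarith
  · linarith

theorem pgf_chain_skip {E : Type} {x y : E × ℕ × ℕ} {l : List (E × ℕ × ℕ)}
    (hl : (x :: y :: l).IsChain (fun x y => x.2.2 < y.2.1)) (hy : y.2.1 ≤ y.2.2) :
    (x :: l).IsChain (fun x y => x.2.2 < y.2.1) := by
  rw [List.isChain_cons_cons] at hl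
  cases l with
  | nil => exact List.isChain_singleton _
  | cons z l =>
    rw [List.isChain_cons_cons] at hl ⊢
    obtain ⟨h1, h2, h3⟩ := hl
    exact ⟨by omega, h3⟩

theorem pgf_two {E : Type} (j : ℕ) (x : E × ℕ × ℕ) (l : List (E × ℕ × ℕ))
    (hl : (x :: l).IsChain (fun x y => x.2.2 < y.2.1))
    (hw : ∀ y ∈ l, y.2.1 ≤ y.2.2 ∧ y.2.2 ≤ 2 ^ j) :
    1 + 2 * uu j * (l.map (rho j x)).sum ≤ 2 := by
  have h1 := rho_sum j x l hl hw
  have h2 := pgf_uu_two j
  have h3 := pgf_uu_pos j
  nlinarith [mul_le_mul_of_nonneg_left h1 (by linarith : (0 : ℝ) ≤ 2 * uu j)]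

/-- **PGF1.** `l` is a list of windows after `x`, in increasing time.

Proof. Induction on `l` (generalising `x`, `k`, `f`), `l = y :: l'`:
`gf (y :: l') = gf l' + u * ind (Hit y) * gf l'`. The first part is bounded by the induction
hypothesis for `x`, `l'` (`x :: l'` is a chain too, as the relation is transitive along windows
with `y.2.1 ≤ y.2.2`). For the second part: if `y.1 ∉ p` it is `0`. Let `k'` be the hop of `y.1`. If
`k' ≤ k` it is `0` (see `hit_pair`). Otherwise `f * ind (Hit x)` depends only on the coordinates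
`≤ k + 1 ≤ k' + 1`, so the induction hypothesis for `y`, `l'` and `f' = f * ind (Hit x)` gives
`Σ f' * ind (Hit y) * gf l' ≤ (1 + 2 u Σ_{l'} rho j y) * Σ f' * ind (Hit y)
≤ 2 * rho j x y * Σ f * ind (Hit x)` by `rho_sum` (`2 u * 12 (j + 1) ^ 2 = 1`) and `hit_pair`. -/
theorem pgf_cond {E : Type} {j : ℕ} {p : List E} (hp : p.Nodup) (l : List (E × ℕ × ℕ))
    (x : E × ℕ × ℕ) (hl : (x :: l).IsChain (fun x y => x.2.2 < y.2.1))
    (hw : ∀ y ∈ l, y.2.1 ≤ y.2.2 ∧ y.2.2 ≤ 2 ^ j) (k : ℕ) (hk : p[k]? = some x.1)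
    (f : PS j → ℝ) (hf0 : ∀ η, 0 ≤ f η)
    (hf : ∀ η η' : PS j, (∀ m : Fin (2 ^ j + 1), (m : ℕ) ≤ k + 1 → η m = η' m) → f η = f η') :
    ∑ η : PS j, f η * ind (Hit p (nu η) x) * gf p l η ≤
      (1 + 2 * uu j * (l.map (rho j x)).sum) * ∑ η : PS j, f η * ind (Hit p (nu η) x) := by
  induction l generalizing x k f with
  | nil =>
    simp [gf]
  | cons y l ih =>
    have hy := hw y (by simp)
    have hwl : ∀ z ∈ l, z.2.1 ≤ z.2.2 ∧ z.2.2 ≤ 2 ^ j := fun z hz => hw z (by simp [hz])
    have hcs := pgf_chain_skip hl hy.1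
    have hxy : x.2.2 < y.2.1 := (List.isChain_cons_cons.1 hl).1
    have hcy : (y :: l).IsChain (fun x y => x.2.2 < y.2.1) := (List.isChain_cons_cons.1 hl).2
    have hrho := pgf_rho_nonneg j hxy hy.1
    have hu := pgf_uu_pos j
    set S : ℝ := ∑ η : PS j, f η * ind (Hit p (nu η) x) with hS
    have hS0 : 0 ≤ S := Finset.sum_nonneg fun η _ => mul_nonneg (hf0 η) (hit_ind_nonneg _)
    have h1 := ih x hcs hwl k hk f hf0 hf
    have h2 : ∑ η : PS j, f η * ind (Hit p (nu η) x) * ind (Hit p (nu η) y) * gf p l η ≤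
        2 * (rho j x y * S) := by
      have hzero : (∀ η : PS j, ¬ (Hit p (nu η) x ∧ Hit p (nu η) y)) →
          ∑ η : PS j, f η * ind (Hit p (nu η) x) * ind (Hit p (nu η) y) * gf p l η ≤
            2 * (rho j x y * S) := by
        intro h
        have h1 : ∀ η : PS j,
            f η * ind (Hit p (nu η) x) * ind (Hit p (nu η) y) * gf p l η = 0 := by
          intro η
          by_cases h2 : Hit p (nu η) x
          · rw [hit_ind_false fun h3 => h η ⟨h2, h3⟩, mul_zero, zero_mul]
          · rw [hit_ind_false h2, mul_zero, zero_mul, zero_mul]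
        rw [Finset.sum_congr rfl fun η _ => h1 η, Finset.sum_const_zero]
        positivity
      by_cases hk' : ∃ k' : ℕ, p[k']? = some y.1
      swap
      · exact hzero fun η h1 => hit_none hk' h1.2
      obtain ⟨k', hk'⟩ := hk'
      by_cases hkk : k' ≤ k
      · refine hzero fun η h1 => ?_
        have h2 := ((hit_iff hp hk).1 h1.1).2
        have h3 := ((hit_iff hp hk').1 h1.2).1
        have h4 := hit_nu_mono η (Nat.succ_le_succ hkk)
        simp only [Nat.succ_eq_add_one] at h4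
        omega
      have h3 := ih y hcy hwl k' hk' (fun η => f η * ind (Hit p (nu η) x))
        (fun η => mul_nonneg (hf0 η) (hit_ind_nonneg _)) (by
          intro η η' h
          have e1 : f η = f η' := hf η η' fun m hm => h m (by omega)
          have e2 : nu η (k + 1) = nu η' (k + 1) := pgf_nu_congr fun m hm => h m (by omega)
          have e3 : Hit p (nu η) x ↔ Hit p (nu η') x := by
            rw [hit_iff hp hk, hit_iff hp hk, e2]
          rw [e1, hit_ind_congr e3])
      have h4 := pgf_two j y l hcy hwl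
      have h5 := hit_pair hp hy.1 hy.2 hxy hk f hf0 hf
      have h6 : 0 ≤ ∑ η : PS j, f η * ind (Hit p (nu η) x) * ind (Hit p (nu η) y) :=
        Finset.sum_nonneg fun η _ => mul_nonneg (mul_nonneg (hf0 η) (hit_ind_nonneg _))
          (hit_ind_nonneg _)
      refine h3.trans ?_
      refine (mul_le_mul_of_nonneg_right h4 h6).trans ?_
      linarith
    have h7 : ∑ η : PS j, f η * ind (Hit p (nu η) x) * gf p (y :: l) η =
        ∑ η : PS j, f η * ind (Hit p (nu η) x) * gf p l η +
        uu j * ∑ η : PS j, f η * ind (Hit p (nu η) x) * ind (Hit p (nu η) y) * gf p l η := by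
      rw [Finset.mul_sum, ← Finset.sum_add_distrib]
      refine Finset.sum_congr rfl fun η _ => ?_
      rw [pgf_gf_cons]
      ring
    rw [h7, List.map_cons, List.sum_cons]
    have h8 := mul_le_mul_of_nonneg_left h2 hu.le
    nlinarith [h1, h8]

open Classical in
/-- **PGF2.** Exponential moment for one packet.

Proof. Induction on `l`, `l = y :: l'`: `gf (y :: l') = gf l' + u * ind (Hit y) * gf l'`; the second
part is `0` if `y.1 ∉ p`, else at most `u * 2 * Σ ind (Hit y)` by `pgf_cond` (with `f = 1`) and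
`rho_sum`, and `Σ ind (Hit y) ≤ (w / 2 ^ (j - 2)) * card` by `hit_first`. -/
theorem pgf {E : Type} {j : ℕ} {p : List E} (hp : p.Nodup) (l : List (E × ℕ × ℕ))
    (hl : l.IsChain (fun x y => x.2.2 < y.2.1))
    (hw : ∀ y ∈ l, y.2.1 ≤ y.2.2 ∧ y.2.2 ≤ 2 ^ j) :
    ∑ η : PS j, gf p l η ≤
      (1 + 2 * uu j * (l.map fun y => if y.1 ∈ p then ((y.2.2 : ℝ) - y.2.1 + 1) / 2 ^ (j - 2)
        else 0).sum) * Fintype.card (PS j) := by
  induction l with
  | nil =>
    simp [gf]
  | cons y l ih =>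
    have hy := hw y (by simp)
    have hwl : ∀ z ∈ l, z.2.1 ≤ z.2.2 ∧ z.2.2 ≤ 2 ^ j := fun z hz => hw z (by simp [hz])
    have hu := pgf_uu_pos j
    have h1 := ih hl.tail hwl
    have h7 : ∑ η : PS j, gf p (y :: l) η = ∑ η : PS j, gf p l η +
        uu j * ∑ η : PS j, ind (Hit p (nu η) y) * gf p l η := by
      rw [Finset.mul_sum, ← Finset.sum_add_distrib]
      exact Finset.sum_congr rfl fun η _ => pgf_gf_cons p y l η
    have h2 : ∑ η : PS j, ind (Hit p (nu η) y) * gf p l η ≤
        2 * ((if y.1 ∈ p then ((y.2.2 : ℝ) - y.2.1 + 1) / 2 ^ (j - 2) else 0) *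
          Fintype.card (PS j)) := by
      by_cases hk : ∃ k : ℕ, p[k]? = some y.1
      · have hm : y.1 ∈ p := List.mem_iff_getElem?.2 hk
        rw [if_pos hm]
        obtain ⟨k, hk⟩ := hk
        have h3 := pgf_cond hp l y hl hwl k hk (fun _ => (1 : ℝ)) (fun _ => zero_le_one)
          (fun _ _ _ => rfl)
        simp only [one_mul] at h3
        have h4 := pgf_two j y l hl hwl
        have h5 := hit_first (j := j) hp hy.1
        have h6 : 0 ≤ ∑ η : PS j, ind (Hit p (nu η) y) :=
          Finset.sum_nonneg fun η _ => hit_ind_nonneg _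
        refine h3.trans ?_
        refine (mul_le_mul_of_nonneg_right h4 h6).trans ?_
        linarith
      · have hm : y.1 ∉ p := fun h => hk (List.mem_iff_getElem?.1 h)
        rw [if_neg hm]
        have h3 : ∀ η : PS j, ind (Hit p (nu η) y) * gf p l η = 0 := fun η => by
          rw [hit_ind_false (hit_none hk), zero_mul]
        rw [Finset.sum_congr rfl fun η _ => h3 η, Finset.sum_const_zero]
        simp
    rw [h7, List.map_cons, List.sum_cons]
    have h8 := mul_le_mul_of_nonneg_left h2 hu.le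
    nlinarith [h1, h8]

end Pool.Agent.PR0225
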