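import Pool.Agent.Lib_MP_0225c1.Chain

open MeasureTheory ProbabilityTheory
open scoped ENNReal

namespace Pool.Agent.PR0225

/-- **ROOT.** If packet `i` has not crossed its edge number `h` (counted from `0`) within
`ν i (h + 1) + Y` steps, then there is a bad skeleton which starts at an edge of the path of `i`.

Proof. Let `h' ≤ h` be minimal with `x (ν i (h' + 1) + Y) i ≤ h'` (note
`ν i (h' + 1) ≤ ν i (h + 1)`, so the times are at most `T`). Put `t₀ = ν i (h' + 1) + Y ≥ 1`,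
`t = t₀ - 1 < T`. Then `x t i ≤ x t₀ i ≤ h'`; and `x t i ≥ h'`: trivial for `h' = 0`, otherwise by
minimality `x (ν i h' + Y) i ≥ h'` and `ν i h' + Y ≤ t` (`ν i h' + k ≤ ν i (h' + 1)`, `1 ≤ k`) and `x`
is monotone in time. So `i` waits for its edge `e` number `h' < length` in step `t`, and by `greedy`
some packet `i'` with `ν i' (x t i' + 1) ≤ ν i (h' + 1)` crosses `e` in step `t`. Apply
`chain_exists` to `i'`: `t + 1 + Σ wt ≤ ν i' _ + Σ cnt` and `t + 1 = ν i (h' + 1) + Y ≥ ν i' _ + Y`,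
so `Y + Σ wt ≤ Σ cnt`. -/
theorem late_bad {E : Type} {n T : ℕ} {p : Fin n → List E} {ν : Fin n → ℕ → ℕ}
    {x : ℕ → Fin n → ℕ} (hx : GreedyRun T p ν x) (hp : ∀ i, (p i).Nodup) {k : ℕ} (hk : 1 ≤ k)
    (h1 : ∀ i, k ≤ ν i 1) (h2 : ∀ i h, ν i h + k ≤ ν i (h + 1)) {Y : ℕ} (hY : 1 ≤ Y)
    {i : Fin n} {h : ℕ} (hh : h < (p i).length) (hT : ν i (h + 1) + Y ≤ T)
    (hl : x (ν i (h + 1) + Y) i ≤ h) :
    ∃ e ∈ p i, ∃ s : List (E × ℕ × ℕ), Skel (Fol p) k T s ∧
      (∃ a b, s.head? = some (e, a, b)) ∧ BadSk p ν k Y s := by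
  classical
  have hν : Monotone (ν i) := monotone_nat_of_le_succ fun m => by
    have := h2 i m
    omega
  have hmono : ∀ s s' : ℕ, s ≤ s' → s' ≤ T → x s i ≤ x s' i := by
    intro s s' hs
    induction s', hs using Nat.le_induction with
    | base => intro _; exact le_rfl
    | succ s' _ ih =>
      intro hT'
      have h3 := ih (by omega)
      have h4 := hx.step s' (by omega) i
      omega
  have hex : ∃ m, x (ν i (m + 1) + Y) i ≤ m := ⟨h, hl⟩
  obtain ⟨m, hm, hmin⟩ : ∃ m, x (ν i (m + 1) + Y) i ≤ m ∧ ∀ m' < m, ¬ x (ν i (m' + 1) + Y) i ≤ m' :=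
    ⟨Nat.find hex, Nat.find_spec hex, fun m' hm' => Nat.find_min hex hm'⟩
  have hmh : m ≤ h := by
    by_contra hcon
    exact hmin h (by omega) hl
  have hνm : ν i (m + 1) ≤ ν i (h + 1) := hν (by omega)
  obtain ⟨t, ht⟩ : ∃ t, ν i (m + 1) + Y = t + 1 := ⟨ν i (m + 1) + Y - 1, by omega⟩
  have htT : t < T := by omega
  rw [ht] at hm
  have h3 : x t i ≤ m := (hmono t (t + 1) (by omega) (by omega)).trans hm
  have h4 : m ≤ x t i := by
    rcases m with _ | m'
    · exact Nat.zero_le _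
    · have h5 := hmin m' (by omega)
      have h6 := h2 i (m' + 1)
      have h7 := hmono (ν i (m' + 1) + Y) t (by omega) (by omega)
      omega
  have h5 : x t i = m := le_antisymm h3 h4
  have hlen : x t i < (p i).length := by omega
  obtain ⟨i', g1, g2, g3⟩ := hx.greedy t htT i hlen
  rw [List.getElem?_eq_getElem hlen] at g1
  rw [h5] at g3
  obtain ⟨s, hs1, ⟨a, hs2⟩, hs3⟩ := chain_exists hx hp h1 h2 htT g1 g2 (by omega)
  refine ⟨(p i)[x t i], List.getElem_mem hlen, s, hs1, ⟨a, _, hs2⟩, ?_⟩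
  unfold BadSk
  omega

end Pool.Agent.PR0225
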