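import Pool.Agent.Lib_MP_0225c1.Defs

open MeasureTheory ProbabilityTheory
open scoped ENNReal

namespace Pool.Agent.PR0225

/-- the law of the random numbers of one phase gives equal masses -/
theorem tr_sing (j : ℕ) (b : PS j) : psLaw j {b} = ((Fintype.card (PS j) : ℝ≥0∞))⁻¹ := by
  unfold psLaw
  rw [uniformOn_univ, Measure.count_singleton, one_div]

/-- seeds with prescribed random numbers in the phases before `j` -/
def trE (j : ℕ) (c : Sd) : Set Sd := {s | ∀ j' < j, s j' = c j'}

theorem trE_pi (j : ℕ) (c : Sd) :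
    trE j c = Set.pi ((Finset.range j : Finset ℕ) : Set ℕ) (fun j' => {c j'}) := by
  ext s
  simp [trE, Set.mem_pi]

theorem trE_meas (j : ℕ) (c : Sd) : MeasurableSet (trE j c) := by
  rw [trE_pi]
  exact MeasurableSet.pi (Finset.countable_toSet _) fun j' _ => measurableSet_singleton _

theorem tr_box (j : ℕ) (c : Sd) :
    Measure.infinitePi psLaw (trE j c) = ∏ j' ∈ Finset.range j, psLaw j' {c j'} := by
  rw [trE_pi, Measure.infinitePi_pi]
  exact fun j' _ => measurableSet_singleton _

theorem tr_step (j : ℕ) (c : Sd) :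
    Measure.infinitePi psLaw (trE (j + 1) c) =
      Measure.infinitePi psLaw (trE j c) * ((Fintype.card (PS j) : ℝ≥0∞))⁻¹ := by
  rw [tr_box, tr_box, Finset.prod_range_succ, tr_sing]

/-- the boxes for all packets -/
def trB {n : ℕ} (j : ℕ) (c : Fin n → Sd) : Set (Fin n → Sd) :=
  Set.pi Set.univ fun i => trE j (c i)

theorem trB_meas {n : ℕ} (j : ℕ) (c : Fin n → Sd) : MeasurableSet (trB j c) :=
  MeasurableSet.univ_pi fun i => trE_meas j (c i)

theorem trB_step {n : ℕ} (j : ℕ) (c : Fin n → Sd) :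
    Measure.pi (fun _ : Fin n => Measure.infinitePi psLaw) (trB (j + 1) c) =
      Measure.pi (fun _ : Fin n => Measure.infinitePi psLaw) (trB j c) *
        ((Fintype.card (Fin n → PS j) : ℝ≥0∞))⁻¹ := by
  unfold trB
  rw [Measure.pi_pi, Measure.pi_pi]
  simp only [tr_step]
  rw [Finset.prod_mul_distrib, Finset.prod_const, Finset.card_univ, Fintype.card_fin,
    Fintype.card_fun, Fintype.card_fin, Nat.cast_pow, ENNReal.inv_pow]

/-- a representative with prescribed values before `j` -/
def trRep {n : ℕ} (j : ℕ) (x : Fin n → (j' : Fin j) → PS j') : Fin n → Sd :=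
  fun i j' => if h : j' < j then x i ⟨j', h⟩ else fun m => ⟨0, rg_pos j' m⟩

theorem trRep_lt {n : ℕ} {j : ℕ} (x : Fin n → (j' : Fin j) → PS j') (i : Fin n) {j' : ℕ}
    (h : j' < j) : trRep j x i j' = x i ⟨j', h⟩ := dif_pos h

/-- the value at `j` is replaced by `z` -/
def trUp {n : ℕ} (j : ℕ) (c : Fin n → Sd) (z : Fin n → PS j) : Fin n → Sd :=
  fun i j' => if h : j' = j then h ▸ z i else c i j'

theorem trUp_ne {n : ℕ} {j : ℕ} (c : Fin n → Sd) (z : Fin n → PS j) (i : Fin n) {j' : ℕ}
    (h : j' ≠ j) : trUp j c z i j' = c i j' := dif_neg h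

theorem trUp_self {n : ℕ} {j : ℕ} (c : Fin n → Sd) (z : Fin n → PS j) (i : Fin n) :
    trUp j c z i j = z i := by
  unfold trUp
  rw [dif_pos rfl]

theorem trB_up {n : ℕ} {j : ℕ} (c : Fin n → Sd) (z : Fin n → PS j) :
    trB j (trUp j c z) = trB j c := by
  ext ω
  simp only [trB, Set.mem_pi, Set.mem_univ, true_imp_iff, trE, Set.mem_ofPred_eq]
  constructor
  · intro h i j' hj
    rw [h i j' hj, trUp_ne c z i hj.ne]
  · intro h i j' hj
    rw [h i j' hj, trUp_ne c z i hj.ne]

open Classical in
/-- **TRANS.** Fubini: the random numbers of phase `j` are uniform and independent of those of the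
earlier phases. `G ω η` depends on `ω` only through the earlier phases.

Proof. `B ⊆ {ω | G ω (fun i => ω i j)}`. Let `X ω = (ω i j')_{i, j' < j}` and
`Z ω = (ω i j)_i`, maps to finite discrete spaces. Under
`Measure.pi (fun _ : Fin n => Measure.infinitePi psLaw)` the pair `(X, Z)` has as law the product of
uniform measures (it is determined by the probabilities of points: `infinitePi_pi` for boxes with
finitely many constrained coordinates, and `Measure.pi_pi`). So for every value `x` of `X`,
`P (X = x, Z ∈ {η | G_x η}) = P (X = x) * #{η | G_x η} / #(Fin n → PS j) ≤ P (X = x) * δ`; sum over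
the finitely many `x`. -/
theorem trans {n : ℕ} (j : ℕ) (B : Set (Fin n → Sd))
    (G : (Fin n → Sd) → (Fin n → PS j) → Prop) (h1 : ∀ ω ∈ B, G ω (fun i => ω i j))
    (h2 : ∀ ω ω' : Fin n → Sd, (∀ i, ∀ j' < j, ω i j' = ω' i j') → ∀ η, G ω η → G ω' η)
    (δ : ℝ) (h3 : ∀ ω, ((Finset.univ.filter fun η => G ω η).card : ℝ) ≤
      δ * Fintype.card (Fin n → PS j)) :
    Measure.pi (fun _ : Fin n => Measure.infinitePi psLaw) B ≤ ENNReal.ofReal δ := by
  set P : Measure (Fin n → Sd) := Measure.pi (fun _ : Fin n => Measure.infinitePi psLaw) with hP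
  set M : ℕ := Fintype.card (Fin n → PS j) with hM
  have hMpos : 0 < M := Fintype.card_pos
  have hM0 : (M : ℝ≥0∞) ≠ 0 := by exact_mod_cast hMpos.ne'
  -- the union bound
  have hsub : B ⊆ ⋃ x ∈ (Finset.univ : Finset (Fin n → (j' : Fin j) → PS j')),
      ⋃ z ∈ (Finset.univ.filter fun η => G (trRep j x) η),
        trB (j + 1) (trUp j (trRep j x) z) := by
    intro ω hω
    have hag : ∀ i, ∀ j' < j, ω i j' = trRep j (fun i (j' : Fin j) => ω i j') i j' :=
      fun i j' hj => (trRep_lt (fun i (j' : Fin j) => ω i j') i hj).symm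
    refine Set.mem_biUnion (Finset.mem_coe.2 (Finset.mem_univ
      (fun i (j' : Fin j) => ω i j'))) ?_
    refine Set.mem_biUnion (x := fun i => ω i j) (Finset.mem_coe.2 (Finset.mem_filter.2
      ⟨Finset.mem_univ _, h2 ω _ hag _ (h1 ω hω)⟩)) ?_
    intro i _ j' hj
    rcases Nat.lt_succ_iff_lt_or_eq.1 hj with hj | rfl
    · rw [trUp_ne _ _ i hj.ne]
      exact hag i j' hj
    · rw [trUp_self]
  have hsum : ∀ x : Fin n → (j' : Fin j) → PS j',
      P (⋃ z ∈ (Finset.univ.filter fun η => G (trRep j x) η),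
        trB (j + 1) (trUp j (trRep j x) z)) ≤ P (trB j (trRep j x)) * ENNReal.ofReal δ := by
    intro x
    refine (measure_biUnion_finset_le _ _).trans ?_
    have hz : ∀ z : Fin n → PS j, P (trB (j + 1) (trUp j (trRep j x) z)) =
        P (trB j (trRep j x)) * ((M : ℝ≥0∞))⁻¹ := by
      intro z
      rw [hP, trB_step, trB_up]
    rw [Finset.sum_congr rfl fun z _ => hz z, Finset.sum_const, nsmul_eq_mul, ← mul_assoc,
      mul_comm ((Finset.card _ : ℕ) : ℝ≥0∞), mul_assoc]
    refine mul_le_mul_right ?_ _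
    have h4 := ENNReal.ofReal_le_ofReal (h3 (trRep j x))
    rw [ENNReal.ofReal_natCast, ENNReal.ofReal_mul' (Nat.cast_nonneg _),
      ENNReal.ofReal_natCast] at h4
    rw [← div_eq_mul_inv]
    exact ENNReal.div_le_of_le_mul h4
  have hdisj : ∑ x : Fin n → (j' : Fin j) → PS j', P (trB j (trRep j x)) ≤ 1 := by
    have h5 := sum_measure_le_measure_univ (μ := P)
      (s := (Finset.univ : Finset (Fin n → (j' : Fin j) → PS j')))
      (t := fun x => trB j (trRep j x)) (fun x _ => (trB_meas j _).nullMeasurableSet) (by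
        intro x _ y _ hxy
        refine Disjoint.aedisjoint ?_
        rw [Set.disjoint_left]
        intro ω hx hy
        apply hxy
        funext i j'
        have h6 := hx i (Set.mem_univ _) j' j'.2
        have h7 := hy i (Set.mem_univ _) j' j'.2
        rw [trRep_lt x i j'.2] at h6
        rw [trRep_lt y i j'.2] at h7
        exact h6.symm.trans h7)
    rw [measure_univ] at h5
    exact h5
  calc P B ≤ P (⋃ x ∈ (Finset.univ : Finset (Fin n → (j' : Fin j) → PS j')),
      ⋃ z ∈ (Finset.univ.filter fun η => G (trRep j x) η),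
        trB (j + 1) (trUp j (trRep j x) z)) := measure_mono hsub
    _ ≤ ∑ x : Fin n → (j' : Fin j) → PS j',
      P (⋃ z ∈ (Finset.univ.filter fun η => G (trRep j x) η),
        trB (j + 1) (trUp j (trRep j x) z)) := measure_biUnion_finset_le _ _
    _ ≤ ∑ x : Fin n → (j' : Fin j) → PS j', P (trB j (trRep j x)) * ENNReal.ofReal δ :=
      Finset.sum_le_sum fun x _ => hsum x
    _ = (∑ x : Fin n → (j' : Fin j) → PS j', P (trB j (trRep j x))) * ENNReal.ofReal δ := by
      rw [Finset.sum_mul]
    _ ≤ 1 * ENNReal.ofReal δ := by gcongr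
    _ = ENNReal.ofReal δ := one_mul _

end Pool.Agent.PR0225
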