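import Pool.Agent.Lib_MP_0225c1.Multi
import Pool.Agent.Lib_MP_0225c1.Count

open MeasureTheory ProbabilityTheory
open scoped ENNReal

namespace Pool.Agent.PR0225

open Classical in
/-- **UNION.** Few seeds have a bad skeleton which starts at `e`.

Proof. Union over the lengths `m ∈ [1, 2 ^ j + 1]` (`skel_length`) and over the skeletons of length
`m` (`skel_count` with `T = 2 ^ j`; `multi` applies to them by `skel_up` and `hc`, `hc8`): the number
is at most `Σ_m ((2 ^ j + 1) ^ 2 (c + 1)) ^ m * exp (-(uu j / 4) K j m) * exp (-(uu j / 2) 2 ^ (j-2)) *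
card`. Here `(uu j / 4) * K j = 400 (j + 1) ^ 3 / (96 (j + 1) ^ 2) ≥ 4 (j + 1)` and
`(2 ^ j + 1) ^ 2 (c + 1) ≤ (2 ^ (j + 1)) ^ 2 * 2 ^ j * 2 ≤ exp (3 (j + 1))`
(`c + 1 ≤ 2 ^ j + 1`; `2 ≤ exp 0.7`; `8 * 2 ^ (3 j) ≤ exp (0.7 (3 j + 3))`), so every term is at
most `exp (-(j + 1) m) ≤ (1 / 2) ^ m` and the sum over `m ≥ 1` is at most `1`. -/
theorem union_bound {E : Type} {n j : ℕ} (p : Fin n → List E) (hp : ∀ i, (p i).Nodup) (c : ℕ)
    (e : E) (hc : ∀ f, Relation.ReflTransGen (Fol p) f e → cong p f ≤ c)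
    (hc8 : 8 * c ≤ 2 ^ (j - 2)) :
    ((Finset.univ.filter fun η : Fin n → PS j =>
        ∃ s : List (E × ℕ × ℕ), Skel (Fol p) (K j) (2 ^ j) s ∧ (∃ a b, s.head? = some (e, a, b)) ∧
          BadSk p (fun i => nu (η i)) (K j) (2 ^ (j - 2)) s).card : ℝ) ≤
      Real.exp (-(uu j / 2) * 2 ^ (j - 2)) * Fintype.card (Fin n → PS j) := by
  have hk : 1 ≤ K j := by
    unfold K K0
    exact Nat.succ_le_of_lt (by positivity)
  have hu0 : 0 < uu j := by unfold uu; positivity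
  choose S hS1 hS2 using fun m => skel_count hp (K j) (2 ^ j) c m e hc
  set N : ℝ := (Fintype.card (Fin n → PS j) : ℝ) with hN
  have hN0 : 0 ≤ N := Nat.cast_nonneg _
  set S' : ℕ → Finset (List (E × ℕ × ℕ)) := fun m => (S m).filter (fun s => s.length = m ∧
    Skel (Fol p) (K j) (2 ^ j) s ∧ ∃ a b, s.head? = some (e, a, b)) with hS'
  set B : List (E × ℕ × ℕ) → Finset (Fin n → PS j) := fun s =>
    Finset.univ.filter fun η : Fin n → PS j =>
      BadSk p (fun i => nu (η i)) (K j) (2 ^ (j - 2)) s with hB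
  have hsub : (Finset.univ.filter fun η : Fin n → PS j =>
        ∃ s : List (E × ℕ × ℕ), Skel (Fol p) (K j) (2 ^ j) s ∧ (∃ a b, s.head? = some (e, a, b)) ∧
          BadSk p (fun i => nu (η i)) (K j) (2 ^ (j - 2)) s) ⊆
      (Finset.Icc 1 (2 ^ j + 1)).biUnion (fun m => (S' m).biUnion B) := by
    intro η hη
    obtain ⟨s, h1, h2, h3⟩ := (Finset.mem_filter.1 hη).2
    rw [Finset.mem_biUnion]
    refine ⟨s.length, Finset.mem_Icc.2 ⟨?_, skel_length hk h1⟩, ?_⟩
    · cases s with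
      | nil =>
        obtain ⟨a, b, hab⟩ := h2
        simp at hab
      | cons x t => simp
    · rw [Finset.mem_biUnion]
      exact ⟨s, Finset.mem_filter.2 ⟨hS2 s.length s rfl h1 h2, rfl, h1, h2⟩,
        Finset.mem_filter.2 ⟨Finset.mem_univ _, h3⟩⟩
  have hcard : ((Finset.univ.filter fun η : Fin n → PS j =>
        ∃ s : List (E × ℕ × ℕ), Skel (Fol p) (K j) (2 ^ j) s ∧ (∃ a b, s.head? = some (e, a, b)) ∧
          BadSk p (fun i => nu (η i)) (K j) (2 ^ (j - 2)) s).card : ℝ) ≤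
      ∑ m ∈ Finset.Icc 1 (2 ^ j + 1), ∑ s ∈ S' m, ((B s).card : ℝ) := by
    have h1 := Finset.card_le_card hsub
    have h2 := h1.trans Finset.card_biUnion_le
    have h3 := h2.trans (Finset.sum_le_sum (fun m _ => Finset.card_biUnion_le (s := S' m) (t := B)))
    exact_mod_cast h3
  -- one length
  have hXr : ∀ m, ((S' m).card : ℝ) ≤ (((2 : ℝ) ^ j + 1) ^ 2 * ((c : ℝ) + 1)) ^ m := by
    intro m
    have h1 : (S' m).card ≤ ((2 ^ j + 1) ^ 2 * (c + 1)) ^ m :=
      (Finset.card_filter_le _ _).trans (hS1 m)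
    exact_mod_cast h1
  have hterm : ∀ m ∈ Finset.Icc 1 (2 ^ j + 1), ∑ s ∈ S' m, ((B s).card : ℝ) ≤
      (((2 : ℝ) ^ j + 1) ^ 2 * ((c : ℝ) + 1)) ^ m *
        (Real.exp (-(uu j / 2) * 2 ^ (j - 2) - (uu j / 4) * (K j * m)) * N) := by
    intro m _
    have h1 : ∀ s ∈ S' m, ((B s).card : ℝ) ≤
        Real.exp (-(uu j / 2) * 2 ^ (j - 2) - (uu j / 4) * (K j * m)) * N := by
      intro s hs
      obtain ⟨hs1, hs2, hs3, hs4⟩ := Finset.mem_filter.1 hs
      obtain ⟨a, b, hab⟩ := hs4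
      have h2 := multi p hp s hs3 (fun x hx =>
        (Nat.mul_le_mul_left 8 (hc _ (skel_up hs3 hab x hx))).trans hc8)
      rw [hs2] at h2
      exact h2
    refine (Finset.sum_le_sum h1).trans ?_
    rw [Finset.sum_const, nsmul_eq_mul]
    refine mul_le_mul_of_nonneg_right (hXr m) ?_
    positivity
  -- the numerical estimate
  have hq : ((2 : ℝ) ^ j + 1) ^ 2 * ((c : ℝ) + 1) * Real.exp (-((uu j / 4) * K j)) ≤ 1 / 2 := by
    have h1 : 4 * ((j : ℝ) + 1) ≤ (uu j / 4) * K j := by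
      unfold uu K K0
      push_cast
      have hj : (0 : ℝ) < (j : ℝ) + 1 := by positivity
      have h2 : 1 / (24 * ((j : ℝ) + 1) ^ 2) / 4 * (((j : ℝ) + 1) * (400 * ((j : ℝ) + 1) ^ 2)) =
          (25 / 6) * ((j : ℝ) + 1) := by
        field_simp
        ring
      rw [h2]
      linarith
    have h2 : Real.exp (-((uu j / 4) * K j)) ≤ Real.exp (-(4 * ((j : ℝ) + 1))) :=
      Real.exp_le_exp.2 (neg_le_neg h1)
    have h3 : Real.exp (-(4 * ((j : ℝ) + 1))) ≤ (1 / 2) ^ (4 * (j + 1)) := by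
      have h4 : -(4 * ((j : ℝ) + 1)) = ((4 * (j + 1) : ℕ) : ℝ) * (-1) := by
        push_cast
        ring
      rw [h4, Real.exp_nat_mul]
      refine pow_le_pow_left₀ (Real.exp_pos _).le ?_ _
      rw [Real.exp_neg, one_div]
      refine inv_anti₀ (by norm_num) ?_
      have := Real.exp_one_gt_d9
      linarith
    have h5 : (2 : ℝ) ^ j + 1 ≤ 2 ^ (j + 1) := by
      have : (1 : ℝ) ≤ 2 ^ j := one_le_pow₀ (by norm_num)
      rw [pow_succ]
      linarith
    have h6 : (c : ℝ) + 1 ≤ 2 ^ j := by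
      have h7 : c + 1 ≤ 2 ^ j := by
        have h8 : 2 ^ (j - 2) ≤ 2 ^ j := Nat.pow_le_pow_right (by norm_num) (Nat.sub_le _ _)
        have h9 : 1 ≤ 2 ^ j := Nat.one_le_two_pow
        omega
      exact_mod_cast h7
    calc ((2 : ℝ) ^ j + 1) ^ 2 * ((c : ℝ) + 1) * Real.exp (-((uu j / 4) * K j))
        ≤ ((2 : ℝ) ^ (j + 1)) ^ 2 * 2 ^ j * (1 / 2) ^ (4 * (j + 1)) := by
          refine mul_le_mul (mul_le_mul (pow_le_pow_left₀ (by positivity) h5 2) h6
            (by positivity) (by positivity)) (h2.trans h3) (Real.exp_pos _).le (by positivity)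
      _ = (1 / 2) ^ (j + 2) := by
          have h7 : ((2 : ℝ) ^ (j + 1)) ^ 2 * 2 ^ j = 2 ^ (3 * j + 2) := by
            rw [← pow_mul, ← pow_add]
            congr 1
            ring
          have h8 : (1 / 2 : ℝ) ^ (4 * (j + 1)) = (1 / 2) ^ (3 * j + 2) * (1 / 2) ^ (j + 2) := by
            rw [← pow_add]
            congr 1
            ring
          rw [h7, h8, ← mul_assoc, ← mul_pow]
          norm_num
      _ ≤ (1 / 2) ^ 1 := pow_le_pow_of_le_one (by norm_num) (by norm_num) (by omega)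
      _ = 1 / 2 := pow_one _
  have hterm2 : ∀ m ∈ Finset.Icc 1 (2 ^ j + 1), ∑ s ∈ S' m, ((B s).card : ℝ) ≤
      (1 / 2) ^ m * (Real.exp (-(uu j / 2) * 2 ^ (j - 2)) * N) := by
    intro m hm
    refine (hterm m hm).trans ?_
    have h1 : Real.exp (-(uu j / 2) * 2 ^ (j - 2) - (uu j / 4) * (K j * m)) =
        Real.exp (-(uu j / 2) * 2 ^ (j - 2)) * Real.exp (-((uu j / 4) * K j)) ^ m := by
      rw [← Real.exp_nat_mul, ← Real.exp_add]
      congr 1
      ring
    rw [h1]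
    have h2 : (((2 : ℝ) ^ j + 1) ^ 2 * ((c : ℝ) + 1)) ^ m *
        (Real.exp (-(uu j / 2) * 2 ^ (j - 2)) * Real.exp (-((uu j / 4) * K j)) ^ m * N) =
        (((2 : ℝ) ^ j + 1) ^ 2 * ((c : ℝ) + 1) * Real.exp (-((uu j / 4) * K j))) ^ m *
          (Real.exp (-(uu j / 2) * 2 ^ (j - 2)) * N) := by
      rw [mul_pow _ (Real.exp (-((uu j / 4) * K j))) m]
      ring
    rw [h2]
    refine mul_le_mul_of_nonneg_right (pow_le_pow_left₀ (by positivity) hq m) (by positivity)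
  refine hcard.trans ((Finset.sum_le_sum hterm2).trans ?_)
  rw [← Finset.sum_mul]
  have hgeom : ∑ m ∈ Finset.Icc 1 (2 ^ j + 1), (1 / 2 : ℝ) ^ m ≤ 1 := by
    have h1 : ∀ M : ℕ, ∑ m ∈ Finset.Icc 1 M, (1 / 2 : ℝ) ^ m = 1 - (1 / 2) ^ M := by
      intro M
      induction M with
      | zero => simp
      | succ M ih =>
        rw [Finset.sum_Icc_succ_top (by omega), ih, pow_succ]
        ring
    rw [h1]
    have : (0 : ℝ) ≤ (1 / 2) ^ (2 ^ j + 1) := by positivity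
    linarith
  calc (∑ m ∈ Finset.Icc 1 (2 ^ j + 1), (1 / 2 : ℝ) ^ m) *
        (Real.exp (-(uu j / 2) * 2 ^ (j - 2)) * N) ≤
        1 * (Real.exp (-(uu j / 2) * 2 ^ (j - 2)) * N) :=
          mul_le_mul_of_nonneg_right hgeom (by positivity)
    _ = Real.exp (-(uu j / 2) * 2 ^ (j - 2)) * N := one_mul _

end Pool.Agent.PR0225
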