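import Pool.Agent.Lib_MP_0225c1.Defs

open MeasureTheory ProbabilityTheory
open scoped ENNReal

namespace Pool.Agent.PR0225

theorem up_cong_le {E : Type} {n : ℕ} (p : Fin n → List E) (e : E) : cong p e ≤ n := by
  classical
  unfold cong
  refine (Finset.card_le_univ _).trans ?_
  rw [Fintype.card_fin]

theorem up_cong_mono {E : Type} {n : ℕ} {p q : Fin n → List E} {e : E}
    (h : ∀ i, e ∈ q i → e ∈ p i) : cong q e ≤ cong p e := by
  classical
  unfold cong
  refine Finset.card_le_card fun i hi => ?_
  rw [Finset.mem_filter] at hi ⊢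
  exact ⟨hi.1, h i hi.2⟩

/-- **UP1.** The upstream congestion bounds the congestion of all upstream edges (the set in its
definition is bounded by `n`). -/
theorem le_upCong {E : Type} {n : ℕ} (p : Fin n → List E) (i : Fin n) {e f : E} (hf : f ∈ p i)
    (h : Relation.ReflTransGen (Fol p) e f) : cong p e ≤ upCong p i := by
  refine le_csSup ⟨n, ?_⟩ ⟨e, f, hf, h, rfl⟩
  rintro m ⟨e', _, _, _, rfl⟩
  exact up_cong_le p e'

/-- **UP2.** Shorter paths: dropping initial edges of the paths only makes `Fol` and `cong`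
smaller. -/
theorem up_drop {E : Type} {n : ℕ} (p : Fin n → List E) (r : Fin n → ℕ) (i : Fin n) {e f : E}
    (hf : f ∈ (p i).drop (r i))
    (h : Relation.ReflTransGen (Fol fun i => (p i).drop (r i)) e f) :
    cong (fun i => (p i).drop (r i)) e ≤ upCong p i := by
  refine (up_cong_mono fun j hj => List.mem_of_mem_drop hj).trans
    (le_upCong p i (List.mem_of_mem_drop hf) (Relation.ReflTransGen.mono ?_ e f h))
  rintro a b ⟨j, k, h1, h2⟩
  rw [List.getElem?_drop] at h1 h2
  exact ⟨j, r j + k, h1, h2⟩

/-- **UP3.** The upstream congestion is at most the maximal congestion. -/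
theorem upCong_le {E : Type} {n : ℕ} (p : Fin n → List E) (i : Fin n) (c : ℕ)
    (h : ∀ e, cong p e ≤ c) : upCong p i ≤ c := by
  refine csSup_le' ?_
  rintro m ⟨e, _, _, _, rfl⟩
  exact h e

/-- **UP4.** A packet with a nonempty path has upstream congestion at least `1`. -/
theorem one_le_upCong {E : Type} {n : ℕ} (p : Fin n → List E) (i : Fin n) (h : p i ≠ []) :
    1 ≤ upCong p i := by
  classical
  obtain ⟨f, hf⟩ := List.exists_mem_of_ne_nil _ h
  refine le_trans ?_ (le_upCong p i hf Relation.ReflTransGen.refl)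
  unfold cong
  refine Finset.card_pos.2 ⟨i, ?_⟩
  rw [Finset.mem_filter]
  exact ⟨Finset.mem_univ i, hf⟩

end Pool.Agent.PR0225
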