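import Pool.Agent.Lib_MP_0225c1.Defs

open MeasureTheory ProbabilityTheory
open scoped ENNReal

namespace Pool.Agent.PR0225

/-- number of multiples of `r` up to `n`, weighted by `r` -/
theorem val_mult (r n : ℕ) : ∑ m ∈ Finset.Ioc 0 n, (if r ∣ m then r else 0) = r * (n / r) := by
  rw [← Finset.sum_filter, Finset.sum_const, Nat.Ioc_filter_dvd_card_eq_div, smul_eq_mul, mul_comm]

theorem val_mult_Ioc (r h h' : ℕ) (hh : h ≤ h') :
    ∑ m ∈ Finset.Ioc h h', (if r ∣ m then r else 0) ≤ (h' - h) + r := by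
  have h1 := Finset.sum_Ioc_consecutive (fun m => if r ∣ m then r else 0) (Nat.zero_le h) hh
  rw [val_mult, val_mult] at h1
  have h2 : r * (h' / r) ≤ h' := Nat.mul_div_le h' r
  have h3 : h < r * (h / r) + r ∨ r = 0 := by
    rcases Nat.eq_zero_or_pos r with hr | hr
    · right
      exact hr
    · left
      have := Nat.lt_mul_div_succ h hr
      rwa [mul_add, mul_one] at this
  rcases h3 with h3 | h3
  · omega
  · subst h3
    simp only [zero_mul] at h1 h2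
    omega

/-- the powers of two are bounded by the sum over the smaller ones -/
theorem val_le_sum (V m : ℕ) (hm : padicValNat 2 m ≤ V) :
    2 ^ padicValNat 2 m ≤ ∑ i ∈ Finset.range (V + 1), (if 2 ^ i ∣ m then 2 ^ i else 0) := by
  have h1 := Finset.single_le_sum (f := fun i => if 2 ^ i ∣ m then 2 ^ i else 0)
    (s := Finset.range (V + 1)) (fun i _ => Nat.zero_le _)
    (Finset.mem_range.2 (Nat.lt_succ_of_le hm))
  have h2 : 2 ^ padicValNat 2 m ∣ m := pow_padicValNat_dvd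
  simp only [if_pos h2] at h1
  exact h1

theorem val_pow_le {m V : ℕ} (hm : 1 ≤ m) (h : m < 2 ^ (V + 1)) : padicValNat 2 m ≤ V := by
  have h1 : 2 ^ padicValNat 2 m ≤ m := Nat.le_of_dvd hm pow_padicValNat_dvd
  by_contra h2
  push Not at h2
  have h3 : 2 ^ (V + 1) ≤ 2 ^ padicValNat 2 m := Nat.pow_le_pow_right (by norm_num) h2
  omega

theorem rg_of_pos (j : ℕ) {m : ℕ} (hm : 1 ≤ m) : rg j m = K0 j * 2 ^ (padicValNat 2 m) := by
  unfold rg
  rw [if_neg (by omega)]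

/-- **VAL1.** Among the hops in `(h, h']`, the one with the largest pause range controls the total
nominal time.

Proof. Let `V` be the largest 2-adic valuation of a number in `(h, h']`, attained at `m` (`m ≥ 1`, so
`rg j m = K0 j * 2 ^ V`, and `V ≤ j` as `2 ^ V ∣ m ≤ 2 ^ j`). `h' - h < 2 ^ (V + 1)`, since
`2 ^ (V + 1)` consecutive integers contain a multiple of `2 ^ (V + 1)`. The constant terms give
`(h' - h) * K j ≤ 2 ^ (V + 1) * (j + 1) * K0 j`. For the pauses,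
`Σ 2 ^ v(m') ≤ Σ_{i ≤ V} 2 ^ i * #{m' ∈ (h, h'] : 2 ^ i ∣ m'} ≤ Σ_{i ≤ V} 2 ^ i * ((h' - h) / 2 ^ i + 1)
≤ (V + 1) * (2 ^ (V + 1) + 2 ^ V)`. In total at most `(2 (j + 1) + 3 (V + 1)) * K0 j * 2 ^ V
≤ 5 (j + 1) * rg j m`. -/
theorem val_max (j h h' : ℕ) (h1 : h < h') (h2 : h' ≤ 2 ^ j) :
    ∃ m, h < m ∧ m ≤ h' ∧ ∑ m' ∈ Finset.Ioc h h', (K j + rg j m') ≤ 6 * (j + 1) * rg j m := by
  obtain ⟨m, hm, hmax⟩ := Finset.exists_max_image (Finset.Ioc h h') (fun m => padicValNat 2 m)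
    ⟨h', Finset.mem_Ioc.2 ⟨h1, le_rfl⟩⟩
  obtain ⟨hm1, hm2⟩ := Finset.mem_Ioc.1 hm
  refine ⟨m, hm1, hm2, ?_⟩
  set V := padicValNat 2 m with hV
  have hVj : V ≤ j := by
    refine val_pow_le (by omega) ?_
    calc m ≤ 2 ^ j := by omega
      _ < 2 ^ (j + 1) := Nat.pow_lt_pow_right (by norm_num) (Nat.lt_succ_self j)
  -- the length of the interval
  have hN : h' - h ≤ 2 ^ (V + 1) := by
    by_contra hc
    push Not at hc
    have hr : 0 < 2 ^ (V + 1) := by positivity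
    -- the multiple
    have ha : h < 2 ^ (V + 1) * (h / 2 ^ (V + 1) + 1) := Nat.lt_mul_div_succ h hr
    have hb : 2 ^ (V + 1) * (h / 2 ^ (V + 1)) ≤ h := Nat.mul_div_le _ _
    have hc' : 2 ^ (V + 1) * (h / 2 ^ (V + 1) + 1) ≤ h' := by
      rw [mul_add, mul_one]
      omega
    have hd := hmax _ (Finset.mem_Ioc.2 ⟨ha, hc'⟩)
    have he : V + 1 ≤ padicValNat 2 (2 ^ (V + 1) * (h / 2 ^ (V + 1) + 1)) := by
      refine (padicValNat_dvd_iff_le (by positivity)).1 ?_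
      exact Dvd.intro _ rfl
    omega
  have hS : ∑ m' ∈ Finset.Ioc h h', 2 ^ padicValNat 2 m' ≤ (V + 1) * (h' - h) + 2 ^ (V + 1) := by
    calc ∑ m' ∈ Finset.Ioc h h', 2 ^ padicValNat 2 m'
        ≤ ∑ m' ∈ Finset.Ioc h h', ∑ i ∈ Finset.range (V + 1),
            (if 2 ^ i ∣ m' then 2 ^ i else 0) :=
          Finset.sum_le_sum fun m' hm' => val_le_sum V m' (hmax m' hm')
      _ = ∑ i ∈ Finset.range (V + 1), ∑ m' ∈ Finset.Ioc h h',
            (if 2 ^ i ∣ m' then 2 ^ i else 0) := Finset.sum_comm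
      _ ≤ ∑ i ∈ Finset.range (V + 1), ((h' - h) + 2 ^ i) :=
          Finset.sum_le_sum fun i _ => val_mult_Ioc (2 ^ i) h h' h1.le
      _ = (V + 1) * (h' - h) + ∑ i ∈ Finset.range (V + 1), 2 ^ i := by
          rw [Finset.sum_add_distrib, Finset.sum_const, Finset.card_range, smul_eq_mul]
      _ ≤ (V + 1) * (h' - h) + 2 ^ (V + 1) := by
          have := Nat.geomSum_lt (m := 2) (n := V + 1) (s := Finset.range (V + 1)) le_rfl
            (fun k hk => Finset.mem_range.1 hk)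
          omega
  have hsum : ∑ m' ∈ Finset.Ioc h h', (K j + rg j m') =
      K0 j * ((j + 1) * (h' - h) + ∑ m' ∈ Finset.Ioc h h', 2 ^ padicValNat 2 m') := by
    rw [mul_add, Finset.mul_sum, Finset.sum_add_distrib, Finset.sum_const, Nat.card_Ioc,
      smul_eq_mul]
    congr 1
    · unfold K
      ring
    · refine Finset.sum_congr rfl fun m' hm' => ?_
      exact rg_of_pos j (by have := (Finset.mem_Ioc.1 hm').1; omega)
  rw [hsum, rg_of_pos j (by omega : 1 ≤ m)]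
  have hfin : (j + 1) * (h' - h) + ∑ m' ∈ Finset.Ioc h h', 2 ^ padicValNat 2 m' ≤
      6 * (j + 1) * 2 ^ V := by
    have e1 : (j + 1) * (h' - h) ≤ (j + 1) * 2 ^ (V + 1) := Nat.mul_le_mul_left _ hN
    have e2 : (V + 1) * (h' - h) ≤ (j + 1) * 2 ^ (V + 1) :=
      Nat.mul_le_mul (by omega) hN
    have e3 : 2 ^ (V + 1) = 2 * 2 ^ V := by rw [pow_succ]; ring
    have e4 : 1 * 2 ^ V ≤ (j + 1) * 2 ^ V := Nat.mul_le_mul_right _ (by omega)
    rw [e3] at e1 e2 hS
    nlinarith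
  calc K0 j * ((j + 1) * (h' - h) + ∑ m' ∈ Finset.Ioc h h', 2 ^ padicValNat 2 m')
      ≤ K0 j * (6 * (j + 1) * 2 ^ V) := Nat.mul_le_mul_left _ hfin
    _ = 6 * (j + 1) * (K0 j * 2 ^ V) := by ring

/-- **VAL2.** The pauses of the first `L` hops are at most `K j * L` in total.

Proof. `Σ_{m=1}^L 2 ^ v(m) ≤ Σ_{i ≤ j} 2 ^ i * #{m ≤ L : 2 ^ i ∣ m} ≤ Σ_{i ≤ j} 2 ^ i * (L / 2 ^ i)
≤ (j + 1) * L`. -/
theorem val_sum (j L : ℕ) (hL : L ≤ 2 ^ j) : ∑ m ∈ Finset.Icc 1 L, rg j m ≤ K j * L := by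
  have hI : Finset.Icc 1 L = Finset.Ioc 0 L := by
    ext m
    rw [Finset.mem_Icc, Finset.mem_Ioc]
    omega
  rw [hI]
  have hS : ∑ m ∈ Finset.Ioc 0 L, 2 ^ padicValNat 2 m ≤ (j + 1) * L := by
    calc ∑ m ∈ Finset.Ioc 0 L, 2 ^ padicValNat 2 m
        ≤ ∑ m ∈ Finset.Ioc 0 L, ∑ i ∈ Finset.range (j + 1),
            (if 2 ^ i ∣ m then 2 ^ i else 0) :=
          Finset.sum_le_sum fun m hm => val_le_sum j m (by
            obtain ⟨h1, h2⟩ := Finset.mem_Ioc.1 hm
            refine val_pow_le h1 ?_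
            calc m ≤ 2 ^ j := by omega
              _ < 2 ^ (j + 1) := Nat.pow_lt_pow_right (by norm_num) (Nat.lt_succ_self j))
      _ = ∑ i ∈ Finset.range (j + 1), ∑ m ∈ Finset.Ioc 0 L,
            (if 2 ^ i ∣ m then 2 ^ i else 0) := Finset.sum_comm
      _ ≤ ∑ i ∈ Finset.range (j + 1), L :=
          Finset.sum_le_sum fun i _ => by
            rw [val_mult]
            exact Nat.mul_div_le L _
      _ = (j + 1) * L := by
          rw [Finset.sum_const, Finset.card_range, smul_eq_mul]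
  calc ∑ m ∈ Finset.Ioc 0 L, rg j m = K0 j * ∑ m ∈ Finset.Ioc 0 L, 2 ^ padicValNat 2 m := by
        rw [Finset.mul_sum]
        refine Finset.sum_congr rfl fun m hm => ?_
        exact rg_of_pos j (Finset.mem_Ioc.1 hm).1
    _ ≤ K0 j * ((j + 1) * L) := Nat.mul_le_mul_left _ hS
    _ = K j * L := by
        unfold K
        ring

/-- **VAL3.** bounds for the nominal times: `val η 0 < 2 ^ (j - 2)`, `val η m < rg j m`. -/
theorem nu_le {j : ℕ} (η : PS j) (L : ℕ) (hL : L ≤ 2 ^ j) :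
    nu η L < 2 * (K j * L) + 2 ^ (j - 2) := by
  have h0 : val η 0 < 2 ^ (j - 2) := by
    unfold val
    rw [dif_pos (by positivity)]
    have h := (η ⟨0, by positivity⟩).2
    have e : rg j ((⟨0, by positivity⟩ : Fin (2 ^ j + 1)) : ℕ) = 2 ^ (j - 2) := by
      unfold rg
      rw [if_pos rfl]
    exact lt_of_lt_of_eq h e
  have h1 : ∀ m, val η m ≤ rg j m := by
    intro m
    unfold val
    split_ifs with h
    · exact (η ⟨m, h⟩).2.le
    · exact Nat.zero_le _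
  have h2 : ∑ m ∈ Finset.range (L + 1), val η m = val η 0 + ∑ m ∈ Finset.Icc 1 L, val η m := by
    rw [Finset.sum_range_succ']
    have e1 : ∑ k ∈ Finset.range L, val η (k + 1) = ∑ m ∈ Finset.Icc 1 L, val η m := by
      rw [Finset.range_eq_Ico, Finset.sum_Ico_add' (fun m => val η m) 0 L 1]
      refine Finset.sum_congr ?_ fun _ _ => rfl
      ext m
      rw [Finset.mem_Ico, Finset.mem_Icc]
      omega
    rw [e1, add_comm]
  have h3 : ∑ m ∈ Finset.Icc 1 L, val η m ≤ K j * L :=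
    (Finset.sum_le_sum fun m _ => h1 m).trans (val_sum j L hL)
  unfold nu
  rw [h2]
  omega

end Pool.Agent.PR0225
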