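import Pool.Agent.Lib_MP_0225c1.Busy
import Pool.Agent.Lib_MP_0225c1.Chain
import Pool.Agent.Lib_MP_0225c1.Root
import Pool.Agent.Lib_MP_0225c1.Val
import Pool.Agent.Lib_MP_0225c1.Avg
import Pool.Agent.Lib_MP_0225c1.Hit
import Pool.Agent.Lib_MP_0225c1.Rho
import Pool.Agent.Lib_MP_0225c1.Pgf
import Pool.Agent.Lib_MP_0225c1.Multi
import Pool.Agent.Lib_MP_0225c1.Count
import Pool.Agent.Lib_MP_0225c1.Union
import Pool.Agent.Lib_MP_0225c1.Fwd
import Pool.Agent.Lib_MP_0225c1.Run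
import Pool.Agent.Lib_MP_0225c1.Trans
import Pool.Agent.Lib_MP_0225c1.Up
import Pool.Agent.Lib_MP_0225c1.Arith
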