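import Pool.Agent.Lib_MP_0225c1.Defs

open MeasureTheory ProbabilityTheory
open scoped ENNReal

namespace Pool.Agent.PR0225

/-- **BUSY.** Busy periods. Packet `q` crosses the edge `e` in step `t`, its nominal time there is
`b`. Then there are `s ≤ t` and a packet `q'` which crosses `e` in a step `t' ∈ [s, t]`, with nominal
time `a ≤ b` there, such that at least `t + 1 - s` packets hit the window `(e, a, b)`, and `q'` did
not yet wait at `e` in step `s - 1`.

Proof. Say that a step `τ` is good if in this step some packet `i` with `(p i)[x τ i]? = some e` and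
`ν i (x τ i + 1) ≤ b` crosses `e`. Step `t` is good. Let `s` be minimal such that all steps in
`[s, t]` are good; so `s = 0` or step `s - 1` is not good. Choose for every `τ ∈ [s, t]` a packet
`i τ`; they are distinct, because a packet crosses `e` at most once (`x` increases by one at every
crossing and is monotone in time, `p i` has no duplicates). Let `q' = i t'` be the one with the
smallest nominal time `a` at `e`. All `i τ` hit `(e, a, b)`, so `cnt ≥ t + 1 - s`. If `s ≥ 1` and
`x (s - 1) q' = x t' q'`, then `q'` waits for `e` in step `s - 1`, so by `greedy` some packet with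
nominal time at most `a ≤ b` crosses `e` in step `s - 1`: this step is good, contradiction. -/
theorem busy {E : Type} {n T : ℕ} {p : Fin n → List E} {ν : Fin n → ℕ → ℕ} {x : ℕ → Fin n → ℕ}
    (hx : GreedyRun T p ν x) (hp : ∀ i, (p i).Nodup) {t : ℕ} (ht : t < T) {q : Fin n} {e : E}
    (he : (p q)[x t q]? = some e) (hc : x (t + 1) q = x t q + 1) :
    ∃ s ≤ t, ∃ (q' : Fin n) (t' : ℕ), s ≤ t' ∧ t' ≤ t ∧ (p q')[x t' q']? = some e ∧
      x (t' + 1) q' = x t' q' + 1 ∧ ν q' (x t' q' + 1) ≤ ν q (x t q + 1) ∧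
      t + 1 ≤ s + cnt p ν (e, ν q' (x t' q' + 1), ν q (x t q + 1)) ∧
      (s = 0 ∨ x (s - 1) q' < x t' q') := by
  classical
  have hmono : ∀ (j : Fin n) (a b : ℕ), a ≤ b → b ≤ T → x a j ≤ x b j := by
    intro j a b hab
    induction b, hab using Nat.le_induction with
    | base => exact fun _ => le_rfl
    | succ b hab ih =>
      intro hb
      have h1 := ih (by omega)
      rcases hx.step b (by omega) j with h2 | h2 <;> omega
  have hinj : ∀ (j : Fin n) (a b : ℕ), (p j)[a]? = some e → (p j)[b]? = some e → a = b := by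
    intro j a b ha hb
    obtain ⟨ha1, ha2⟩ := List.getElem?_eq_some_iff.1 ha
    obtain ⟨hb1, hb2⟩ := List.getElem?_eq_some_iff.1 hb
    exact (List.Nodup.getElem_inj_iff (hp j)).1 (ha2.trans hb2.symm)
  let P : ℕ → Fin n → Prop := fun τ i => (p i)[x τ i]? = some e ∧ x (τ + 1) i = x τ i + 1 ∧
    ν i (x τ i + 1) ≤ ν q (x t q + 1)
  have hex : ∃ s, s ≤ t ∧ ∀ τ, s ≤ τ → τ ≤ t → ∃ i, P τ i := by
    refine ⟨t, le_rfl, fun τ h1 h2 => ?_⟩
    obtain rfl : τ = t := by omega
    exact ⟨q, he, hc, le_rfl⟩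
  obtain ⟨hst, hgood⟩ := Nat.find_spec hex
  set s := Nat.find hex with hs
  have hmin : s = 0 ∨ ¬ ∃ i, P (s - 1) i := by
    by_contra hcon
    push Not at hcon
    obtain ⟨h1, h2⟩ := hcon
    have h3 : s - 1 < s := by omega
    refine Nat.find_min hex (m := s - 1) (by rw [← hs]; exact h3) ⟨by omega, fun τ h4 h5 => ?_⟩
    rcases Nat.eq_or_lt_of_le h4 with h6 | h6
    · rw [← h6]
      exact h2
    · exact hgood τ (by omega) h5
  have hgood' : ∀ τ, ∃ i, s ≤ τ → τ ≤ t → P τ i := by
    intro τ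
    by_cases h : s ≤ τ ∧ τ ≤ t
    · obtain ⟨i, hi⟩ := hgood τ h.1 h.2
      exact ⟨i, fun _ _ => hi⟩
    · exact ⟨q, fun h1 h2 => absurd ⟨h1, h2⟩ h⟩
  choose i hi using hgood'
  obtain ⟨t', ht', hmin'⟩ := Finset.exists_min_image (Finset.Icc s t)
    (fun τ => ν (i τ) (x τ (i τ) + 1)) ⟨t, Finset.mem_Icc.2 ⟨hst, le_rfl⟩⟩
  obtain ⟨h1, h2⟩ := Finset.mem_Icc.1 ht'
  obtain ⟨h3, h4, h5⟩ := hi t' h1 h2
  refine ⟨s, hst, i t', t', h1, h2, h3, h4, h5, ?_, ?_⟩
  · have hcard : (Finset.Icc s t).card ≤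
        (Finset.univ.filter fun j => Hit (p j) (ν j)
          (e, ν (i t') (x t' (i t') + 1), ν q (x t q + 1))).card := by
      refine Finset.card_le_card_of_injOn i ?_ ?_
      · intro τ hτ
        have hτ' := Finset.mem_Icc.1 (Finset.mem_coe.1 hτ)
        obtain ⟨h6, h7, h8⟩ := hi τ hτ'.1 hτ'.2
        refine Finset.mem_coe.2 (Finset.mem_filter.2 ⟨Finset.mem_univ _, x τ (i τ), h6, ?_, h8⟩)
        exact hmin' τ (Finset.mem_coe.1 hτ)
      · have key : ∀ τ τ', s ≤ τ → τ < τ' → τ' ≤ t → i τ ≠ i τ' := by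
          intro τ τ' h6 h7 h8 h9
          obtain ⟨k1, k2, -⟩ := hi τ h6 (by omega)
          obtain ⟨k3, k4, -⟩ := hi τ' (by omega) h8
          rw [← h9] at k3
          have k5 := hinj _ _ _ k1 k3
          have k6 := hmono (i τ) (τ + 1) τ' h7 (by omega)
          omega
        intro τ hτ τ' hτ' h6
        have k1 := Finset.mem_Icc.1 (Finset.mem_coe.1 hτ)
        have k2 := Finset.mem_Icc.1 (Finset.mem_coe.1 hτ')
        rcases lt_trichotomy τ τ' with h7 | h7 | h7
        · exact absurd h6 (key τ τ' k1.1 h7 k2.2)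
        · exact h7
        · exact absurd h6.symm (key τ' τ k2.1 h7 k1.2)
    rw [Nat.card_Icc] at hcard
    have hcnt : cnt p ν (e, ν (i t') (x t' (i t') + 1), ν q (x t q + 1)) =
        (Finset.univ.filter fun j => Hit (p j) (ν j)
          (e, ν (i t') (x t' (i t') + 1), ν q (x t q + 1))).card := by
      unfold cnt
      congr
    rw [hcnt]
    omega
  · rcases hmin with h6 | h6
    · exact Or.inl h6
    · right
      by_contra hcon
      have h7 := hmono (i t') (s - 1) t' (by omega) (by omega)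
      have h8 : x (s - 1) (i t') = x t' (i t') := by omega
      apply h6
      have h9 : (p (i t'))[x (s - 1) (i t')]? = some e := by rw [h8]; exact h3
      obtain ⟨k1, -⟩ := List.getElem?_eq_some_iff.1 h9
      obtain ⟨j, k2, k3, k4⟩ := hx.greedy (s - 1) (by omega) (i t') k1
      refine ⟨j, k2.trans h9, k3, k4.trans ?_⟩
      rw [h8]
      exact h5

end Pool.Agent.PR0225
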