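import Mathlib

/-!
# MP_0225c1_lc: oblivious packet routing, definitions

Model (networks, path collections, oblivious strategies, runs), the strategy `edf` (earliest
nominal time first, with multi-scale random pauses), and the notions of the analysis of one phase.
-/

open MeasureTheory ProbabilityTheory
open scoped ENNReal

namespace Pool.Agent.PR0225

/-! ## The model -/

/-- A directed graph (multiple edges are allowed). -/
structure Net where
  /-- nodes -/
  V : Type
  /-- edges -/
  E : Type
  /-- source of an edge -/
  src : E → V
  /-- target of an edge -/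
  tgt : E → V

/-- The information carried by a packet: its name, its path, the times at which it crossed the
edges of its path so far, and its private random seed. -/
structure Info (E Seed : Type) where
  /-- name -/
  id : ℕ
  /-- the path, as a list of edges -/
  path : List E
  /-- the times of the steps in which the packet crossed its first edges -/
  hist : List ℕ
  /-- private randomness -/
  seed : Seed

/-- the next edge of the path of the packet -/
def Info.next {E Seed : Type} (x : Info E Seed) : Option E := x.path[x.hist.length]?

/-- An oblivious (local control) strategy. Every packet carries a private random seed (all seeds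
are independent with the same law `law`). At time `t` the node `src e` looks only at the set of the
packets which wait at it (with the information which they carry) and decides which packet (if any)
crosses the edge `e`: `fwd E t S e = some i` means that the packet named `i` does. -/
structure Strategy where
  /-- space of the seeds -/
  Seed : Type
  /-- σ-algebra -/
  mS : MeasurableSpace Seed
  /-- law of one seed -/
  law : @Measure Seed mS
  /-- it is a probability measure -/
  prob : @IsProbabilityMeasure Seed mS law
  /-- forwarding rule -/
  fwd : (E : Type) → ℕ → Set (Info E Seed) → E → Option ℕ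

/-- A collection of `n` paths (without repeated edges) in the network `G`. -/
structure Coll (G : Net) (n : ℕ) where
  /-- the paths, as lists of edges -/
  path : Fin n → List G.E
  /-- consecutive edges are consecutive in the graph -/
  chain : ∀ i, (path i).IsChain (fun e f => G.tgt e = G.src f)
  /-- no path uses an edge twice -/
  nodup : ∀ i, (path i).Nodup

/-- congestion of an edge: the number of paths which use it -/
noncomputable def cong {E : Type} {n : ℕ} (p : Fin n → List E) (e : E) : ℕ := by
  classical exact (Finset.univ.filter fun i => e ∈ p i).card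

/-- `e` and `f` are consecutive edges of one of the paths -/
def Fol {E : Type} {n : ℕ} (p : Fin n → List E) (e f : E) : Prop :=
  ∃ i k, (p i)[k]? = some e ∧ (p i)[k + 1]? = some f

/-- upstream congestion of packet `i`: the maximal congestion of an edge from which a sequence of
consecutive edges of paths leads to the path of `i` -/
noncomputable def upCong {E : Type} {n : ℕ} (p : Fin n → List E) (i : Fin n) : ℕ :=
  sSup {m | ∃ e f, f ∈ p i ∧ Relation.ReflTransGen (Fol p) e f ∧ m = cong p e}

/-- information carried by packet `i` if the histories are `h` -/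
def info {G : Net} {n : ℕ} (C : Coll G n) {Seed : Type} (ω : Fin n → Seed)
    (h : Fin n → List ℕ) (i : Fin n) : Info G.E Seed :=
  ⟨i, C.path i, h i, ω i⟩

/-- the packets which wait at the node `v` -/
def present {G : Net} {n : ℕ} (C : Coll G n) {Seed : Type} (ω : Fin n → Seed)
    (h : Fin n → List ℕ) (v : G.V) : Set (Info G.E Seed) :=
  {x | ∃ i, x = info C ω h i ∧ ∃ e, x.next = some e ∧ G.src e = v}

/-- packet `i` crosses the edge `e` in step `t` -/
def Crosses {G : Net} {n : ℕ} (C : Coll G n) (σ : Strategy) (ω : Fin n → σ.Seed)
    (h : Fin n → List ℕ) (t : ℕ) (i : Fin n) (e : G.E) : Prop :=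
  (info C ω h i).next = some e ∧ σ.fwd G.E t (present C ω h (G.src e)) e = some i.val

open Classical in
/-- the histories (lists of crossing times) at time `t` -/
noncomputable def hist {G : Net} {n : ℕ} (C : Coll G n) (σ : Strategy) (ω : Fin n → σ.Seed) :
    ℕ → Fin n → List ℕ
  | 0, _ => []
  | t + 1, i =>
    if ∃ e, Crosses C σ ω (hist C σ ω t) t i e then hist C σ ω t i ++ [t] else hist C σ ω t i

/-- packet `i` has reached the end of its path at time `t` -/
def Arrived {G : Net} {n : ℕ} (C : Coll G n) (σ : Strategy) (ω : Fin n → σ.Seed) (t : ℕ)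
    (i : Fin n) : Prop :=
  (hist C σ ω t i).length = (C.path i).length

/-! ## The strategy -/

/-- unit of the pauses in phase `j` -/
def K0 (j : ℕ) : ℕ := 400 * (j + 1) ^ 2

/-- nominal time per edge in phase `j` -/
def K (j : ℕ) : ℕ := (j + 1) * K0 j

/-- number of values of the `m`-th random number of phase `j` -/
def rg (j m : ℕ) : ℕ := if m = 0 then 2 ^ (j - 2) else K0 j * 2 ^ (padicValNat 2 m)

/-- the random numbers of one packet for phase `j` -/
abbrev PS (j : ℕ) : Type := (m : Fin (2 ^ j + 1)) → Fin (rg j m)

/-- the `m`-th random number -/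
def val {j : ℕ} (η : PS j) (m : ℕ) : ℕ := if h : m < 2 ^ j + 1 then (η ⟨m, h⟩ : ℕ) else 0

/-- nominal time of the `h`-th hop in phase `j` -/
def nu {j : ℕ} (η : PS j) (h : ℕ) : ℕ := K j * h + ∑ m ∈ Finset.range (h + 1), val η m

/-- seeds: random numbers for all phases -/
abbrev Sd : Type := (j : ℕ) → PS j

/-- number of the phase which contains time `t`: phase `j` is `[2 ^ j - 1, 2 ^ (j + 1) - 1)` -/
def phase (t : ℕ) : ℕ := Nat.log 2 (t + 1)

/-- priority key of a packet at time `t`: the nominal time of its next hop; the hops are counted
from the beginning of the current phase -/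
def key {E : Type} (t : ℕ) (x : Info E Sd) : ℕ :=
  nu (x.seed (phase t))
    (x.hist.length - (x.hist.filter (fun s => decide (s < 2 ^ (phase t) - 1))).length + 1)

/-- `x` has priority over `y` at time `t` (ties are broken by the names) -/
def Pri {E : Type} (t : ℕ) (x y : Info E Sd) : Prop :=
  key t x < key t y ∨ (key t x = key t y ∧ x.id ≤ y.id)

open Classical in
/-- the forwarding rule: the waiting packet with the earliest nominal time -/
noncomputable def edfFwd (E : Type) (t : ℕ) (S : Set (Info E Sd)) (e : E) : Option ℕ :=
  if h : ∃ x ∈ S, x.next = some e ∧ ∀ y ∈ S, y.next = some e → Pri t x y then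
    some h.choose.id
  else none

theorem rg_pos (j m : ℕ) : 0 < rg j m := by
  unfold rg K0
  split <;> positivity

instance (j m : ℕ) : NeZero (rg j m) := ⟨(rg_pos j m).ne'⟩

instance (j : ℕ) : Nonempty (PS j) := ⟨fun m => ⟨0, rg_pos j m⟩⟩

/-- law of the random numbers of one phase: uniform -/
noncomputable def psLaw (j : ℕ) : Measure (PS j) := uniformOn Set.univ

instance (j : ℕ) : IsProbabilityMeasure (psLaw j) :=
  isProbabilityMeasure_uniformOn Set.finite_univ Set.univ_nonempty

/-- The strategy: in phase `j` every packet draws its random numbers for this phase, and every edge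
always forwards the waiting packet with the earliest nominal time. -/
noncomputable def edf : Strategy where
  Seed := Sd
  mS := inferInstance
  law := Measure.infinitePi psLaw
  prob := inferInstance
  fwd := edfFwd

/-! ## One phase -/

/-- A window `(e, a, b)` is hit by a packet with path `p` and nominal times `ν`. -/
def Hit {E : Type} (p : List E) (ν : ℕ → ℕ) (x : E × ℕ × ℕ) : Prop :=
  ∃ k, p[k]? = some x.1 ∧ x.2.1 ≤ ν (k + 1) ∧ ν (k + 1) ≤ x.2.2

open Classical in
/-- number of packets which hit a window -/
noncomputable def cnt {E : Type} {n : ℕ} (p : Fin n → List E) (ν : Fin n → ℕ → ℕ)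
    (x : E × ℕ × ℕ) : ℕ :=
  (Finset.univ.filter fun i => Hit (p i) (ν i) x).card

/-- weight of a window -/
def wt {E : Type} (k : ℕ) (x : E × ℕ × ℕ) : ℕ := x.2.2 - x.2.1 + k

/-- Skeletons: sequences of windows `(e, [a, b])`, going backwards in time and upstream. -/
def Skel {E : Type} (F : E → E → Prop) (k T : ℕ) (s : List (E × ℕ × ℕ)) : Prop :=
  (∀ x ∈ s, x.2.1 ≤ x.2.2 ∧ x.2.2 ≤ T) ∧
    s.IsChain (fun x y => F y.1 x.1 ∧ y.2.2 + k ≤ x.2.1)

/-- bad skeletons: too many packets in the windows -/
def BadSk {E : Type} {n : ℕ} (p : Fin n → List E) (ν : Fin n → ℕ → ℕ) (k Y : ℕ)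
    (s : List (E × ℕ × ℕ)) : Prop :=
  Y + (s.map (wt k)).sum ≤ (s.map (cnt p ν)).sum

/-- A greedy run of `T` steps: `x t i` is the number of edges which packet `i` has crossed after
`t` steps. Whenever a packet waits for an edge, some packet with at most the same nominal time
crosses this edge. -/
structure GreedyRun {E : Type} {n : ℕ} (T : ℕ) (p : Fin n → List E) (ν : Fin n → ℕ → ℕ)
    (x : ℕ → Fin n → ℕ) : Prop where
  zero : ∀ i, x 0 i = 0
  step : ∀ t < T, ∀ i, x (t + 1) i = x t i ∨ x (t + 1) i = x t i + 1
  len : ∀ t ≤ T, ∀ i, x t i ≤ (p i).length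
  one : ∀ t < T, ∀ i i', (p i)[x t i]? = (p i')[x t i']? → x (t + 1) i = x t i + 1 →
    x (t + 1) i' = x t i' + 1 → i = i'
  greedy : ∀ t < T, ∀ i, x t i < (p i).length → ∃ i', (p i')[x t i']? = (p i)[x t i]? ∧
    x (t + 1) i' = x t i' + 1 ∧ ν i' (x t i' + 1) ≤ ν i (x t i + 1)

/-- the parameter of the exponential moments -/
noncomputable def uu (j : ℕ) : ℝ := 1 / (24 * ((j : ℝ) + 1) ^ 2)

open Classical in
/-- indicator -/
noncomputable def ind (P : Prop) : ℝ := if P then 1 else 0

/-- bound for the conditional probability that the window `y` is hit by a packet which has hit the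
earlier window `x` -/
noncomputable def rho {E : Type} (j : ℕ) (x y : E × ℕ × ℕ) : ℝ :=
  min 1 (6 * ((j : ℝ) + 1) * ((y.2.2 : ℝ) - y.2.1 + 1) / ((y.2.1 : ℝ) - x.2.2))

end Pool.Agent.PR0225
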