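import Pool.Agent.Lib_MP_0225c1.All

open MeasureTheory ProbabilityTheory
open scoped ENNReal

namespace Pool.Agent.PR0225

variable {G : Net} {n : ℕ}

theorem K_pos (j : ℕ) : 1 ≤ K j := by
  have : 0 < K j := by unfold K K0; positivity
  exact this

theorem nu_one {j : ℕ} (η : PS j) : K j ≤ nu η 1 := by
  unfold nu; omega

theorem nu_add {j : ℕ} (η : PS j) (h : ℕ) : nu η h + K j ≤ nu η (h + 1) := by
  unfold nu
  rw [Finset.sum_range_succ _ (h + 1)]
  nlinarith [Nat.zero_le (val η (h + 1))]

theorem GreedyRun.mono {E : Type} {T : ℕ} {p : Fin n → List E} {ν : Fin n → ℕ → ℕ}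
    {x : ℕ → Fin n → ℕ} (hx : GreedyRun T p ν x) (i : Fin n) {s t : ℕ} (hst : s ≤ t)
    (ht : t ≤ T) : x s i ≤ x t i := by
  induction t, hst using Nat.le_induction with
  | base => exact le_rfl
  | succ t hst ih =>
    have h1 := ih (by omega)
    rcases hx.step t (by omega) i with h | h <;> omega

/-- remaining paths -/
def rest (C : Coll G n) (h : Fin n → List ℕ) (i : Fin n) : List G.E :=
  (C.path i).drop (h i).length

theorem rest_nodup (C : Coll G n) (h : Fin n → List ℕ) (i : Fin n) : (rest C h i).Nodup :=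
  (C.nodup i).sublist (List.drop_sublist _ _)

theorem rest_length (C : Coll G n) (h : Fin n → List ℕ) (i : Fin n) :
    (rest C h i).length ≤ (C.path i).length := by
  unfold rest
  rw [List.length_drop]
  omega

/-- There is a bad skeleton which starts on the remaining path of packet `i`. -/
def Bd (C : Coll G n) (i : Fin n) (j : ℕ) (ω : Fin n → Sd) (η : Fin n → PS j) : Prop :=
  ∃ e ∈ rest C (hist C edf ω (2 ^ j - 1)) i, ∃ s : List (G.E × ℕ × ℕ),
    Skel (Fol (rest C (hist C edf ω (2 ^ j - 1)))) (K j) (2 ^ j) s ∧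
      (∃ a b, s.head? = some (e, a, b)) ∧
      BadSk (rest C (hist C edf ω (2 ^ j - 1))) (fun i => nu (η i)) (K j) (2 ^ (j - 2)) s

theorem bd_of_late (C : Coll G n) (i : Fin n) (j : ℕ) (hj : 2 ≤ j)
    (hK : 2 * (K j * (C.path i).length) ≤ 2 ^ (j - 2)) (ω : Fin n → Sd)
    (hω : ¬ Arrived C edf ω (2 ^ (j + 1) - 1) i) : Bd C i j ω (fun i => ω i j) := by
  have hrun := run_phase C ω j
  have hpow : 2 ^ j = 4 * 2 ^ (j - 2) := by
    obtain ⟨k, rfl⟩ := Nat.exists_eq_add_of_le hj
    rw [pow_add, Nat.add_sub_cancel_left]; norm_num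
  have hY : 1 ≤ 2 ^ (j - 2) := Nat.one_le_two_pow
  set h0 := hist C edf ω (2 ^ j - 1) with hh0
  set L := (rest C h0 i).length with hL
  have hLd : L ≤ (C.path i).length := rest_length C h0 i
  have hL' : L = (C.path i).length - (h0 i).length := by
    rw [hL]; unfold rest; rw [List.length_drop]
  have hlen0 : (h0 i).length ≤ (C.path i).length := hist_length C ω _ i
  have htime : 2 ^ j - 1 + 2 ^ j = 2 ^ (j + 1) - 1 := by
    rw [pow_succ]; omega
  have hlen1 : (hist C edf ω (2 ^ j - 1 + 2 ^ j) i).length < (C.path i).length := by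
    rw [htime]
    exact lt_of_le_of_ne (hist_length C ω _ i) hω
  have hxT : (hist C edf ω (2 ^ j - 1 + 2 ^ j) i).length - (h0 i).length < L := by
    have hm := hrun.mono i (Nat.zero_le (2 ^ j)) le_rfl
    have hmono : (h0 i).length ≤ (hist C edf ω (2 ^ j - 1 + 2 ^ j) i).length := by
      have := hist_filter C ω (2 ^ j - 1) (2 ^ j - 1 + 2 ^ j) (by omega) i
      rw [hh0, ← this]
      exact List.length_filter_le _ _
    omega
  have hL1 : 1 ≤ L := by omega
  have hKpos := K_pos j
  have hLK : L ≤ K j * (C.path i).length := by nlinarith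
  have hKL : 2 * (K j * L) ≤ 2 ^ (j - 2) := le_trans (by gcongr) hK
  have hL2 : L ≤ 2 ^ j := by omega
  have hnu := nu_le (ω i j) L hL2
  have hTL : nu (ω i j) L + 2 ^ (j - 2) ≤ 2 ^ j := by omega
  have hL3 : L - 1 + 1 = L := by omega
  obtain ⟨e, he, s, hs1, hs2, hs3⟩ := late_bad hrun (fun i => rest_nodup C h0 i) hKpos
    (fun i => nu_one (ω i j)) (fun i h => nu_add (ω i j) h) hY (i := i) (h := L - 1)
    (by show L - 1 < L; omega) (by rw [hL3]; exact hTL)
    (by
      rw [hL3]
      have hm : (hist C edf ω (2 ^ j - 1 + (nu (ω i j) L + 2 ^ (j - 2))) i).length -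
          (h0 i).length ≤ (hist C edf ω (2 ^ j - 1 + 2 ^ j) i).length - (h0 i).length :=
        hrun.mono i (s := nu (ω i j) L + 2 ^ (j - 2)) hTL le_rfl
      show (hist C edf ω (2 ^ j - 1 + (nu (ω i j) L + 2 ^ (j - 2))) i).length -
          (h0 i).length ≤ L - 1
      omega)
  exact ⟨e, he, s, hs1, hs2, hs3⟩

open Classical in
theorem bd_card (C : Coll G n) (i : Fin n) (j : ℕ) (h8 : 8 * upCong C.path i ≤ 2 ^ (j - 2))
    (ω : Fin n → Sd) :
    ((Finset.univ.filter fun η => Bd C i j ω η).card : ℝ) ≤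
      ((C.path i).length * Real.exp (-(uu j / 2) * 2 ^ (j - 2))) *
        Fintype.card (Fin n → PS j) := by
  set h0 := hist C edf ω (2 ^ j - 1) with hh0
  set p' := rest C h0 with hp'
  have hsub : (Finset.univ.filter fun η => Bd C i j ω η) ⊆
      (p' i).toFinset.biUnion fun e => Finset.univ.filter fun η : Fin n → PS j =>
        ∃ s : List (G.E × ℕ × ℕ), Skel (Fol p') (K j) (2 ^ j) s ∧
          (∃ a b, s.head? = some (e, a, b)) ∧
          BadSk p' (fun i => nu (η i)) (K j) (2 ^ (j - 2)) s := by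
    intro η hη
    rw [Finset.mem_filter] at hη
    obtain ⟨e, he, hs⟩ := hη.2
    rw [Finset.mem_biUnion]
    exact ⟨e, List.mem_toFinset.2 he, Finset.mem_filter.2 ⟨Finset.mem_univ _, hs⟩⟩
  have hcard : ∀ e ∈ (p' i).toFinset, (((Finset.univ.filter fun η : Fin n → PS j =>
        ∃ s : List (G.E × ℕ × ℕ), Skel (Fol p') (K j) (2 ^ j) s ∧
          (∃ a b, s.head? = some (e, a, b)) ∧
          BadSk p' (fun i => nu (η i)) (K j) (2 ^ (j - 2)) s).card : ℕ) : ℝ) ≤
      Real.exp (-(uu j / 2) * 2 ^ (j - 2)) * Fintype.card (Fin n → PS j) := by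
    intro e he
    refine union_bound p' (fun i => rest_nodup C h0 i) (upCong C.path i) e ?_ h8
    intro f hf
    exact up_drop C.path (fun i => (h0 i).length) i (List.mem_toFinset.1 he) hf
  calc ((Finset.univ.filter fun η => Bd C i j ω η).card : ℝ)
      ≤ (((p' i).toFinset.biUnion fun e => Finset.univ.filter fun η : Fin n → PS j =>
        ∃ s : List (G.E × ℕ × ℕ), Skel (Fol p') (K j) (2 ^ j) s ∧
          (∃ a b, s.head? = some (e, a, b)) ∧
          BadSk p' (fun i => nu (η i)) (K j) (2 ^ (j - 2)) s).card : ℝ) := by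
        exact_mod_cast Finset.card_le_card hsub
    _ ≤ ((∑ e ∈ (p' i).toFinset, (Finset.univ.filter fun η : Fin n → PS j =>
        ∃ s : List (G.E × ℕ × ℕ), Skel (Fol p') (K j) (2 ^ j) s ∧
          (∃ a b, s.head? = some (e, a, b)) ∧
          BadSk p' (fun i => nu (η i)) (K j) (2 ^ (j - 2)) s).card : ℕ) : ℝ) := by
        exact_mod_cast Finset.card_biUnion_le
    _ ≤ ∑ e ∈ (p' i).toFinset,
          Real.exp (-(uu j / 2) * 2 ^ (j - 2)) * Fintype.card (Fin n → PS j) := by
        push_cast
        exact Finset.sum_le_sum hcard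
    _ = ((p' i).toFinset.card : ℝ) *
          (Real.exp (-(uu j / 2) * 2 ^ (j - 2)) * Fintype.card (Fin n → PS j)) := by
        rw [Finset.sum_const, nsmul_eq_mul]
    _ ≤ ((C.path i).length : ℝ) *
          (Real.exp (-(uu j / 2) * 2 ^ (j - 2)) * Fintype.card (Fin n → PS j)) := by
        have h1 : (p' i).toFinset.card ≤ (C.path i).length :=
          le_trans (List.toFinset_card_le _) (rest_length C h0 i)
        have h2 : ((p' i).toFinset.card : ℝ) ≤ ((C.path i).length : ℝ) := by exact_mod_cast h1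
        exact mul_le_mul_of_nonneg_right h2 (by positivity)
    _ = _ := by ring

/-- one packet -/
theorem late_prob (C : Coll G n) (i : Fin n) (j : ℕ) (hj : 2 ≤ j)
    (h8 : 8 * upCong C.path i ≤ 2 ^ (j - 2))
    (hK : 2 * (K j * (C.path i).length) ≤ 2 ^ (j - 2)) :
    Measure.pi (fun _ : Fin n => Measure.infinitePi psLaw)
      {ω | ¬ Arrived C edf ω (2 ^ (j + 1) - 1) i} ≤
      ENNReal.ofReal ((C.path i).length * Real.exp (-(uu j / 2) * 2 ^ (j - 2))) := by
  classical
  refine trans j _ (Bd C i j) (fun ω hω => bd_of_late C i j hj hK ω hω) ?_ _ ?_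
  · intro ω ω' h η hη
    have hh := hist_causal C j ω ω' h (2 ^ j - 1) le_rfl
    unfold Bd at hη ⊢
    rw [← hh]
    exact hη
  · intro ω
    exact bd_card C i j h8 ω

theorem union_all (μ : Measure (Fin n → Sd)) (P : (Fin n → Sd) → Fin n → Prop)
    (B : Fin n → Set (Fin n → Sd)) (hB : ∀ i ω, ω ∉ B i → P ω i) :
    μ {ω | ¬ ∀ i, P ω i} ≤ ∑ i, μ (B i) := by
  refine le_trans (measure_mono ?_) (measure_iUnion_fintype_le μ B)
  intro ω hω
  by_contra hcon
  exact hω fun i => hB i ω fun hi => hcon (Set.mem_iUnion.2 ⟨i, hi⟩)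

theorem pi_prob : IsProbabilityMeasure
    (Measure.pi (fun _ : Fin n => (Measure.infinitePi psLaw : Measure Sd))) := by
  infer_instance

/-- **MAIN.** There is an oblivious strategy such that for
every `α > 0` there is `A` such that, for every network and every collection of `n` paths without
repeated edges, with probability at least `1 - n ^ (-α)` every packet `i` arrives within
`A (c + ℓ ^ 3 d + ℓ ^ 2 log n)` steps, where `c` is its upstream congestion, `d` the length of its
path and `ℓ = log (2 + c + d + log n)`. -/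
theorem main : ∃ σ : Strategy, ∀ α : ℝ, 0 < α → ∃ A : ℝ, ∀ (G : Net) (n : ℕ) (C : Coll G n),
    (@Measure.pi (Fin n) (fun _ => σ.Seed) _ (fun _ => σ.mS) (fun _ => σ.law))
      {ω | ¬ ∀ i : Fin n, ∃ t : ℕ,
        (t : ℝ) ≤ A * (upCong C.path i +
          Real.log (2 + upCong C.path i + (C.path i).length + Real.log n) ^ 3 *
            (C.path i).length +
          Real.log (2 + upCong C.path i + (C.path i).length + Real.log n) ^ 2 * Real.log n) ∧
        Arrived C σ ω t i} ≤ ENNReal.ofReal ((n : ℝ) ^ (-α)) := by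
  refine ⟨edf, fun α hα => ?_⟩
  obtain ⟨A, hA0, hA⟩ := arith α hα
  refine ⟨A, fun G n C => ?_⟩
  change Measure.pi (fun _ : Fin n => (Measure.infinitePi psLaw : Measure Sd)) _ ≤ _
  have hprob := pi_prob (n := n)
  rcases Nat.lt_or_ge n 2 with hn | hn
  · interval_cases n
    · -- no packets
      refine le_trans (union_all _ (fun ω i => _) (fun i => i.elim0) fun i => i.elim0) ?_
      simp
    · refine le_trans prob_le_one ?_
      simp
  -- at least two packets
  have key : ∀ i : Fin n, ∃ B : Set (Fin n → Sd),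
      Measure.pi (fun _ : Fin n => (Measure.infinitePi psLaw : Measure Sd)) B ≤
        ENNReal.ofReal ((n : ℝ) ^ (-(α + 1))) ∧
      ∀ ω, ω ∉ B → ∃ t : ℕ,
        (t : ℝ) ≤ A * (upCong C.path i +
          Real.log (2 + upCong C.path i + (C.path i).length + Real.log n) ^ 3 *
            (C.path i).length +
          Real.log (2 + upCong C.path i + (C.path i).length + Real.log n) ^ 2 * Real.log n) ∧
        Arrived C edf ω t i := by
    intro i
    have hlogn : 0 ≤ Real.log n := Real.log_natCast_nonneg n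
    by_cases hp : C.path i = []
    · refine ⟨∅, by simp, fun ω _ => ⟨0, ?_, ?_⟩⟩
      · have h1 : 0 ≤ Real.log (2 + upCong C.path i + (C.path i).length + Real.log n) := by
          apply Real.log_nonneg
          have : (0 : ℝ) ≤ upCong C.path i := by positivity
          have : (0 : ℝ) ≤ (C.path i).length := by positivity
          linarith
        push_cast
        positivity
      · show (hist C edf ω 0 i).length = _
        rw [hp]
        rfl
    · have hc := one_le_upCong C.path i hp
      have hd : 1 ≤ (C.path i).length := List.length_pos_iff.2 hp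
      obtain ⟨j, hj, h8, hK, hexp, hM⟩ := hA (upCong C.path i) (C.path i).length n hc hd hn
      refine ⟨{ω | ¬ Arrived C edf ω (2 ^ (j + 1) - 1) i},
        le_trans (late_prob C i j hj h8 hK) (ENNReal.ofReal_le_ofReal hexp), fun ω hω => ?_⟩
      refine ⟨2 ^ (j + 1) - 1, ?_, not_not.1 hω⟩
      refine le_trans ?_ hM
      have : ((2 ^ (j + 1) - 1 : ℕ) : ℝ) ≤ ((2 ^ (j + 1) : ℕ) : ℝ) := by
        exact_mod_cast Nat.sub_le _ _
      refine le_trans this (le_of_eq ?_)
      push_cast
      ring
  choose B hB1 hB2 using key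
  have hn0 : (0 : ℝ) < n := by
    have : 0 < n := by omega
    exact_mod_cast this
  calc Measure.pi (fun _ : Fin n => (Measure.infinitePi psLaw : Measure Sd)) _
      ≤ ∑ i, Measure.pi (fun _ : Fin n => (Measure.infinitePi psLaw : Measure Sd)) (B i) :=
        union_all _ _ B hB2
    _ ≤ ∑ _i : Fin n, ENNReal.ofReal ((n : ℝ) ^ (-(α + 1))) :=
        Finset.sum_le_sum fun i _ => hB1 i
    _ = ENNReal.ofReal ((n : ℝ) ^ (-α)) := by
        rw [Finset.sum_const, Finset.card_univ, Fintype.card_fin, nsmul_eq_mul,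
          ← ENNReal.ofReal_natCast, ← ENNReal.ofReal_mul (by positivity)]
        congr 1
        have : (n : ℝ) ^ (-(α + 1)) = (n : ℝ) ^ (-α) * (n : ℝ) ^ (-1 : ℝ) := by
          rw [← Real.rpow_add hn0]
          congr 1
          ring
        rw [this, Real.rpow_neg_one]
        field_simp

end Pool.Agent.PR0225
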