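import Pool.Agent.Lib_MP_0225c1.Fwd

open MeasureTheory ProbabilityTheory
open scoped ENNReal

namespace Pool.Agent.PR0225

/-- lengths of the histories are monotone -/
theorem hist_len_mono {G : Net} {n : ℕ} (C : Coll G n) (ω : Fin n → Sd) (s t : ℕ) (hst : s ≤ t)
    (i : Fin n) : (hist C edf ω s i).length ≤ (hist C edf ω t i).length := by
  rw [← hist_filter C ω s t hst i]
  exact List.length_filter_le _ _

theorem phase_add (j τ : ℕ) (hτ : τ < 2 ^ j) : phase (2 ^ j - 1 + τ) = j := by
  unfold phase
  have h1 : 2 ^ j - 1 + τ + 1 = 2 ^ j + τ := by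
    have := Nat.one_le_two_pow (n := j)
    omega
  rw [h1]
  refine (Nat.log_eq_iff (Or.inr ⟨by norm_num, by positivity⟩)).2 ⟨by omega, ?_⟩
  rw [pow_succ]
  omega

/-- the key in phase `j` -/
theorem key_phase {G : Net} {n : ℕ} (C : Coll G n) (ω : Fin n → Sd) (j τ : ℕ) (hτ : τ < 2 ^ j)
    (i : Fin n) :
    key (2 ^ j - 1 + τ) (info C ω (hist C edf ω (2 ^ j - 1 + τ)) i) =
      nu (ω i j) ((hist C edf ω (2 ^ j - 1 + τ) i).length -
        (hist C edf ω (2 ^ j - 1) i).length + 1) := by
  unfold key
  rw [phase_add j τ hτ]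
  have h := hist_filter C ω (2 ^ j - 1) (2 ^ j - 1 + τ) (by omega) i
  simp only [info]
  rw [h]

theorem drop_next {G : Net} {n : ℕ} (C : Coll G n) (ω : Fin n → Sd) (s t : ℕ) (hst : s ≤ t)
    (i : Fin n) :
    ((C.path i).drop (hist C edf ω s i).length)[(hist C edf ω t i).length -
        (hist C edf ω s i).length]? = (info C ω (hist C edf ω t) i).next := by
  have h := hist_len_mono C ω s t hst i
  rw [List.getElem?_drop]
  unfold Info.next info
  simp only
  congr 1
  omega

/-- **RUN.** In phase `j` (the `2 ^ j` steps which start at time `2 ^ j - 1`) the strategy is a greedy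
run on the remaining paths with the nominal times of this phase.

Proof. For `τ < 2 ^ j` the step `2 ^ j - 1 + τ` belongs to phase `j` (`Nat.log`), and by
`hist_filter` the key of packet `i` in this step is `nu (ω i j) (x τ i + 1)`,
`x τ i = length now - length at the beginning`. The edge for which packet `i` waits is
`(path.drop start)[x τ i]?`. Use `hist_succ`, `hist_length`, `edfFwd_iff`, `edfFwd_exists`. -/
theorem run_phase {G : Net} {n : ℕ} (C : Coll G n) (ω : Fin n → Sd) (j : ℕ) :
    GreedyRun (2 ^ j) (fun i => (C.path i).drop (hist C edf ω (2 ^ j - 1) i).length)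
      (fun i => nu (ω i j))
      (fun τ i => (hist C edf ω (2 ^ j - 1 + τ) i).length -
        (hist C edf ω (2 ^ j - 1) i).length) := by
  have hmono : ∀ τ i, (hist C edf ω (2 ^ j - 1) i).length ≤
      (hist C edf ω (2 ^ j - 1 + τ) i).length := fun τ i =>
    hist_len_mono C ω _ _ (by omega) i
  -- one step
  have hcross : ∀ τ i, (hist C edf ω (2 ^ j - 1 + (τ + 1)) i).length -
        (hist C edf ω (2 ^ j - 1) i).length = (hist C edf ω (2 ^ j - 1 + τ) i).length -
        (hist C edf ω (2 ^ j - 1) i).length + 1 →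
      ∃ e, Crosses C edf ω (hist C edf ω (2 ^ j - 1 + τ)) (2 ^ j - 1 + τ) i e := by
    intro τ i h
    rcases hist_succ C ω (2 ^ j - 1 + τ) i with ⟨_, h2⟩ | ⟨h1, _⟩
    · exact h2
    · exfalso
      rw [← add_assoc, h1] at h
      omega
  have hcross' : ∀ τ i, (∃ e, Crosses C edf ω (hist C edf ω (2 ^ j - 1 + τ)) (2 ^ j - 1 + τ) i e) →
      (hist C edf ω (2 ^ j - 1 + (τ + 1)) i).length -
        (hist C edf ω (2 ^ j - 1) i).length = (hist C edf ω (2 ^ j - 1 + τ) i).length -
        (hist C edf ω (2 ^ j - 1) i).length + 1 := by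
    intro τ i h
    rcases hist_succ C ω (2 ^ j - 1 + τ) i with ⟨h1, _⟩ | ⟨_, h2⟩
    · rw [← add_assoc, h1, List.length_append, List.length_singleton]
      have := hmono τ i
      omega
    · exact absurd h h2
  refine ⟨?_, ?_, ?_, ?_, ?_⟩
  · intro i
    simp
  · intro t _ i
    by_cases h : ∃ e, Crosses C edf ω (hist C edf ω (2 ^ j - 1 + t)) (2 ^ j - 1 + t) i e
    · exact Or.inr (hcross' t i h)
    · left
      rcases hist_succ C ω (2 ^ j - 1 + t) i with ⟨_, h2⟩ | ⟨h1, _⟩
      · exact absurd h2 h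
      · show (hist C edf ω (2 ^ j - 1 + (t + 1)) i).length - _ = _
        rw [← add_assoc, h1]
  · intro t _ i
    have h1 := hist_length C ω (2 ^ j - 1 + t) i
    show _ ≤ ((C.path i).drop _).length
    rw [List.length_drop]
    omega
  · intro t ht i i' he h1 h2
    obtain ⟨e, he1, he2⟩ := hcross t i h1
    obtain ⟨e', he1', he2'⟩ := hcross t i' h2
    have he' : (info C ω (hist C edf ω (2 ^ j - 1 + t)) i).next =
        (info C ω (hist C edf ω (2 ^ j - 1 + t)) i').next := by
      rw [← drop_next C ω (2 ^ j - 1) (2 ^ j - 1 + t) (by omega) i,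
        ← drop_next C ω (2 ^ j - 1) (2 ^ j - 1 + t) (by omega) i']
      exact he
    obtain rfl : e = e' := Option.some.inj (he1.symm.trans (he'.trans he1'))
    exact Fin.ext (Option.some.inj (he2.symm.trans he2'))
  · intro t ht i hlt
    have hlt' : (hist C edf ω (2 ^ j - 1 + t) i).length < (C.path i).length := by
      have h3 : (hist C edf ω (2 ^ j - 1 + t) i).length -
        (hist C edf ω (2 ^ j - 1) i).length <
          ((C.path i).drop (hist C edf ω (2 ^ j - 1) i).length).length := hlt
      rw [List.length_drop] at h3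
      have := hmono t i
      omega
    obtain ⟨e, he⟩ : ∃ e, (info C ω (hist C edf ω (2 ^ j - 1 + t)) i).next = some e := by
      unfold Info.next info
      simp only
      exact ⟨_, List.getElem?_eq_getElem hlt'⟩
    obtain ⟨i', hi1, hi2⟩ := edfFwd_exists C ω (hist C edf ω (2 ^ j - 1 + t)) (2 ^ j - 1 + t) e i he
    refine ⟨i', ?_, ?_, ?_⟩
    · show ((C.path i').drop _)[_]? = ((C.path i).drop _)[_]?
      rw [drop_next C ω (2 ^ j - 1) (2 ^ j - 1 + t) (by omega) i,
        drop_next C ω (2 ^ j - 1) (2 ^ j - 1 + t) (by omega) i', he, hi1]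
    · exact hcross' t i' ⟨e, hi1, hi2⟩
    · have h4 := ((edfFwd_iff C ω _ _ e i').1 hi2).2 i he
      have h5 : key (2 ^ j - 1 + t) (info C ω (hist C edf ω (2 ^ j - 1 + t)) i') ≤
          key (2 ^ j - 1 + t) (info C ω (hist C edf ω (2 ^ j - 1 + t)) i) := by
        rcases h4 with h | h
        · exact h.le
        · exact h.1.le
      rw [key_phase C ω j t ht, key_phase C ω j t ht] at h5
      exact h5

end Pool.Agent.PR0225
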